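import Pool.Agent.Lib.SE.G.SpecK

/-!
# PROJECT SE-G, module Cnv: from `2 m` to `m`, `m` odd
-/

set_option autoImplicit false

open Module

noncomputable section

namespace SEG

open HC HC.E HC.SE SEB SEQ SER SE SEE

namespace Cnv_aux

section roots
variable {K : Type} [Field K] [CharZero K] {m : ℕ}

theorem neg_sq_pow (ζ : K) (l : ℕ) : (-ζ) ^ (2 * l) = ζ ^ (2 * l) := by
  rw [pow_mul, pow_mul, neg_sq]

theorem pow_half {ζ : K} (h0 : 0 < m) (h : IsPrimitiveRoot ζ (2 * m)) : ζ ^ m = -1 := by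
  have h1 : (ζ ^ m) * (ζ ^ m) = 1 := by
    rw [← pow_add, ← two_mul]
    exact h.pow_eq_one
  rcases mul_self_eq_one_iff.1 h1 with h2 | h2
  · have h3 := Nat.le_of_dvd h0 (h.dvd_of_pow_eq_one m h2)
    omega
  · exact h2

/-- From `2 m` to `m`. -/
theorem neg_prim (hm : Odd m) {ζ : K} (h : IsPrimitiveRoot ζ (2 * m)) :
    IsPrimitiveRoot (-ζ) m := by
  have h0 : 0 < m := hm.pos
  refine ⟨?_, fun l hl => ?_⟩
  · rw [hm.neg_pow, pow_half h0 h, neg_neg]
  · have h1 : ζ ^ (2 * l) = 1 := by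
      rw [← neg_sq_pow, mul_comm, pow_mul, hl, one_pow]
    exact Nat.dvd_of_mul_dvd_mul_left (by norm_num) (h.dvd_of_pow_eq_one _ h1)

/-- From `m` to `2 m`. -/
theorem prim_neg (hm : Odd m) {ζ : K} (h : IsPrimitiveRoot ζ m) :
    IsPrimitiveRoot (-ζ) (2 * m) := by
  have hc : Nat.Coprime 2 m := Nat.coprime_two_left.2 hm
  refine ⟨?_, fun l hl => ?_⟩
  · rw [neg_sq_pow, mul_comm, pow_mul, h.pow_eq_one, one_pow]
  · have h1 : ζ ^ (2 * l) = 1 := by
      rw [← neg_sq_pow, mul_comm, pow_mul, hl, one_pow]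
    have h2 : m ∣ l := hc.symm.dvd_of_dvd_mul_left (h.dvd_of_pow_eq_one _ h1)
    have h3 : ζ ^ l = 1 := by
      obtain ⟨k, rfl⟩ := h2
      rw [pow_mul, h.pow_eq_one, one_pow]
    have h4 : 2 ∣ l := by
      rcases Nat.even_or_odd l with h5 | h5
      · exact h5.two_dvd
      · exfalso
        rw [h5.neg_pow, h3] at hl
        have h6 : (2 : K) = 0 := by linear_combination -hl
        exact two_ne_zero h6
    exact hc.mul_dvd_of_dvd_of_dvd h4 h2

end roots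

/-- The minimal polynomial. -/
theorem cyc_neg {V : Type} [AddCommGroup V] [Module ℂ V] {m : ℕ} (hm : Odd m)
    (Z : Module.End ℂ V) (h : Polynomial.aeval Z (Polynomial.cyclotomic (2 * m) ℤ) = 0) :
    Polynomial.aeval (-Z) (Polynomial.cyclotomic m ℤ) = 0 := by
  have h0 : 0 < m := hm.pos
  have hζ := Complex.isPrimitiveRoot_exp (2 * m) (by omega)
  set ζ := Complex.exp (2 * Real.pi * Complex.I / ((2 * m : ℕ) : ℂ)) with hζd
  have h1 : Polynomial.cyclotomic (2 * m) ℤ = minpoly ℤ ζ :=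
    Polynomial.cyclotomic_eq_minpoly hζ (by omega)
  have h2 : Polynomial.aeval ζ ((Polynomial.cyclotomic m ℤ).comp (-Polynomial.X)) = 0 := by
    rw [Polynomial.aeval_comp, map_neg, Polynomial.aeval_X]
    have h3 := (neg_prim hm hζ).isRoot_cyclotomic h0
    rw [← Polynomial.map_cyclotomic m (Int.castRingHom ℂ), Polynomial.IsRoot.def,
      Polynomial.eval_map] at h3
    exact h3
  have h3 : Polynomial.cyclotomic (2 * m) ℤ ∣
      (Polynomial.cyclotomic m ℤ).comp (-Polynomial.X) := by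
    rw [h1]
    exact minpoly.isIntegrallyClosed_dvd (hζ.isIntegral (by omega)) h2
  obtain ⟨k, hk⟩ := h3
  have h4 : Polynomial.aeval Z ((Polynomial.cyclotomic m ℤ).comp (-Polynomial.X)) = 0 := by
    rw [hk, map_mul, h, zero_mul]
  rw [Polynomial.aeval_comp, map_neg, Polynomial.aeval_X] at h4
  exact h4

section chars
variable {m : ℕ}

theorem dv : m ∣ 2 * m := ⟨2, mul_comm _ _⟩

/-- The bijection of the characters (its inverse). -/
def Ec (hm : Odd m) (t : (ZMod (2 * m))ˣ) : (ZMod m)ˣ :=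
  (ZMod.unitOfCoprime 2 (Nat.coprime_two_left.2 hm))⁻¹ * ZMod.unitsMap dv t

theorem Ec_neg (hm : Odd m) (t : (ZMod (2 * m))ˣ) : Ec hm (-t) = -Ec hm t := by
  have h1 : ZMod.unitsMap (dv (m := m)) (-t) = -ZMod.unitsMap dv t := by
    apply Units.ext
    rw [ZMod.unitsMap_val, Units.val_neg, Units.val_neg, ZMod.unitsMap_val]
    exact map_neg (ZMod.castHom (dv (m := m)) (ZMod m)) _
  unfold Ec
  rw [h1, mul_neg]

theorem Ec_surj (hm : Odd m) : Function.Surjective (Ec hm) := by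
  have h0 : 0 < m := hm.pos
  haveI : NeZero (2 * m) := ⟨by omega⟩
  intro s
  obtain ⟨t, ht⟩ := ZMod.unitsMap_surjective (dv (m := m))
    (ZMod.unitOfCoprime 2 (Nat.coprime_two_left.2 hm) * s)
  refine ⟨t, ?_⟩
  unfold Ec
  rw [ht, inv_mul_cancel_left]

theorem Ec_two (hm : Odd m) (t : (ZMod (2 * m))ˣ) :
    (2 : ZMod m) * (Ec hm t : ZMod m) = (((t : ZMod (2 * m)).val : ℕ) : ZMod m) := by
  have h0 : 0 < m := hm.pos
  haveI : NeZero (2 * m) := ⟨by omega⟩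
  have h1 : ZMod.unitOfCoprime 2 (Nat.coprime_two_left.2 hm) * Ec hm t = ZMod.unitsMap dv t := by
    unfold Ec
    rw [mul_inv_cancel_left]
  have h2 := congrArg (fun x : (ZMod m)ˣ => (x : ZMod m)) h1
  simp only [Units.val_mul, ZMod.coe_unitOfCoprime, ZMod.unitsMap_val] at h2
  rw [ZMod.natCast_val]
  rw [← h2]
  norm_num

theorem zet_rel (hm : Odd m) (t : (ZMod (2 * m))ˣ) :
    zet m (Ec hm t) = -zet (2 * m) t := by
  have h0 : 0 < m := hm.pos
  haveI : NeZero m := ⟨by omega⟩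
  have hζ := Complex.isPrimitiveRoot_exp (2 * m) (by omega)
  have hη := Complex.isPrimitiveRoot_exp m (by omega)
  have hsq : Complex.exp (2 * Real.pi * Complex.I / ((2 * m : ℕ) : ℂ)) ^ 2 =
      Complex.exp (2 * Real.pi * Complex.I / (m : ℂ)) := by
    rw [← Complex.exp_nat_mul]
    congr 1
    have : (m : ℂ) ≠ 0 := Nat.cast_ne_zero.2 (by omega)
    push_cast
    field_simp
  have hodd : Odd (t : ZMod (2 * m)).val := by
    have h1 := ZMod.val_coe_unit_coprime t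
    exact Nat.coprime_two_left.1 (Nat.Coprime.coprime_dvd_right ⟨m, rfl⟩ h1).symm
  obtain ⟨k, hk⟩ : ∃ k, m + (t : ZMod (2 * m)).val = 2 * k := by
    obtain ⟨k, hk⟩ := hm.add_odd hodd
    exact ⟨k, by omega⟩
  have h1 : -zet (2 * m) t = Complex.exp (2 * Real.pi * Complex.I / (m : ℂ)) ^ k := by
    rw [← hsq, ← pow_mul, ← hk, pow_add, pow_half h0 hζ]
    unfold zet
    ring
  rw [h1]
  unfold zet
  rw [pow_eq_pow_mod (Ec hm t : ZMod m).val hη.pow_eq_one, pow_eq_pow_mod k hη.pow_eq_one]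
  congr 1
  rw [← ZMod.natCast_eq_natCast_iff', ZMod.natCast_val, ZMod.cast_id]
  have h2 := Ec_two hm t
  have h3 : (2 : ZMod m) * (k : ZMod m) = (((t : ZMod (2 * m)).val : ℕ) : ZMod m) := by
    have h4 : ((m + (t : ZMod (2 * m)).val : ℕ) : ZMod m) = ((2 * k : ℕ) : ZMod m) := by rw [hk]
    rw [Nat.cast_add, Nat.cast_mul] at h4
    rw [ZMod.natCast_self, zero_add] at h4
    push_cast
    exact h4.symm
  have h5 : IsUnit (2 : ZMod m) := by
    have := (ZMod.unitOfCoprime 2 (Nat.coprime_two_left.2 hm)).isUnit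
    rw [ZMod.coe_unitOfCoprime] at this
    exact_mod_cast this
  exact h5.mul_left_cancel (h2.trans h3.symm)

end chars

section main
variable {G : AV} {m : ℕ} (hm : Odd m) (D : Cyc G (2 * m))

/-- The data for `m`. -/
def D0 : Cyc G m where
  Z := -D.Z
  lat v hv := by
    rw [LinearMap.neg_apply]
    exact G.L.neg_mem (D.lat v hv)
  cyc := cyc_neg hm D.Z D.cyc
  ψ := D.ψ
  int := D.int
  alt := D.alt
  cpx := D.cpx
  pos := D.pos
  inv u v := by
    simp only [LinearMap.neg_apply, map_neg, neg_neg]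
    exact D.inv u v

theorem Ws_eq (t : (ZMod (2 * m))ˣ) : Ws D t = Ws (D0 hm D) (Ec hm t) := by
  ext a
  have h1 : a ∈ Ws D t ↔ ∀ v, a (D.Z v) = zet (2 * m) t * a v := Iff.rfl
  have h2 : a ∈ Ws (D0 hm D) (Ec hm t) ↔ ∀ v, a (-(D.Z v)) = zet m (Ec hm t) * a v := Iff.rfl
  rw [h1, h2, zet_rel]
  refine forall_congr' fun v => ?_
  rw [map_neg, neg_mul, neg_inj]

theorem Ws10_eq (t : (ZMod (2 * m))ˣ) : Ws10 D t = Ws10 (D0 hm D) (Ec hm t) := by
  ext a
  have h1 : a ∈ Ws10 D t ↔ a ∈ Ws D t ∧ ∀ v, a (Complex.I • v) = Complex.I * a v := Iff.rfl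
  have h2 : a ∈ Ws10 (D0 hm D) (Ec hm t) ↔
      a ∈ Ws (D0 hm D) (Ec hm t) ∧ ∀ v, a (Complex.I • v) = Complex.I * a v := Iff.rfl
  rw [h1, h2, Ws_eq hm D]

theorem p_eq (t : (ZMod (2 * m))ˣ) : (D0 hm D).p (Ec hm t) = D.p t := by
  unfold Cyc.p
  rw [Ws10_eq hm D]

theorem isU {X : Module.End ℝ G.V} (h : IsU (D0 hm D) X) : IsU D X := by
  refine ⟨fun v => ?_, h.2⟩
  have h1 : X (-(D.Z v)) = -(D.Z (X v)) := h.1 v
  rw [map_neg, neg_inj] at h1
  exact h1

theorem hlie {h : Set (Module.End ℝ G.V)} (H : HLie (D0 hm D) h) : HLie D h :=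
  ⟨H.rat, fun X hX => isU hm D (H.u X hX), H.lie, H.J⟩

theorem hit (H : IsHit D) : IsHit (D0 hm D) := by
  intro h hh F hF A hA
  let ε : ∀ t, Ws D t ≃ₗ[ℂ] Ws (D0 hm D) (Ec hm t) := fun t =>
    LinearEquiv.ofEq _ _ (Ws_eq hm D t)
  have hε : ∀ t (a : Ws D t), ((ε t a : Ws (D0 hm D) (Ec hm t)) : Frm G) = (a : Frm G) :=
    fun t a => rfl
  obtain ⟨C, hC, hCA⟩ := H h (hlie hm D hh) {t | Ec hm t ∈ F} (fun t ht ht' => by
      have h1 : Ec hm (-t) ∈ F := ht'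
      rw [Ec_neg] at h1
      exact hF _ ht h1)
    (fun t => (ε t).symm.conj (A (Ec hm t))) (fun t => by
      rw [LinearMap.trace_conj']
      exact hA _)
  refine ⟨C, hC, fun s hs a => ?_⟩
  obtain ⟨t, rfl⟩ := Ec_surj hm s
  have h1 := hCA t hs ((ε t).symm a)
  have h2 : (((ε t).symm a : Ws D t) : Frm G) = (a : Frm G) := by
    rw [← hε, LinearEquiv.apply_symm_apply]
  rw [h2] at h1
  rw [h1, LinearEquiv.conj_apply_apply, LinearEquiv.symm_symm, LinearEquiv.apply_symm_apply,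
    ← hε t, LinearEquiv.apply_symm_apply]

theorem tr_neg {T G : AV} (hT : T = G) (Z : Module.End ℂ G.V) (v : T.V) :
    (hT ▸ (-Z) (hT ▸ v) : T.V) = -(hT ▸ Z (hT ▸ v) : T.V) := by
  subst hT
  rfl

theorem hda (H : HDa D) : HDa (D0 hm D) := by
  intro R hR X hX
  have hR' : IsPol G D.Z R := by
    obtain ⟨h1, h2, h3, h4, h5⟩ := hR
    refine ⟨h1, h2, h3, h4, fun u v => ?_⟩
    have h6 : R (-(D.Z u)) (-(D.Z v)) = R u v := h5 u v
    simp only [map_neg, LinearMap.neg_apply, neg_neg] at h6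
    exact h6
  obtain ⟨ζ, hζ⟩ := hX
  obtain ⟨t, hT, ξ, h1, h2, h3⟩ := H R hR' X ⟨-ζ, prim_neg hm hζ⟩
  refine ⟨t, hT, -ξ, fun v => ?_, h2, h3⟩
  rw [map_neg, LinearMap.neg_apply, h1]
  exact (tr_neg hT D.Z v).symm

end main

end Cnv_aux

open Cnv_aux in
theorem tCnv : S_Cnv := by
  intro G m r D h3 hm hD hp hH
  refine ⟨D0 hm D, ⟨h3, hD.hr, ?_, hit hm D hD.hit⟩, fun s => ?_, hda hm D hH⟩
  · rw [hD.dim, Nat.totient_two_mul_of_odd hm]
  · obtain ⟨t, rfl⟩ := Ec_surj hm s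
    rw [p_eq]
    exact hp t

end SEG
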