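import Pool.Agent.Lib.SE.G.SpecK
import Pool.Agent.Lib.SE.E.Cp

/-!
# PROJECT SE-G, module Cpk: kinds are compatible (helper95)
-/

set_option autoImplicit false

open Module

noncomputable section

namespace SEG

open HC HC.E HC.SE SEB SEQ SER SE SEE

namespace Cpk_aux

theorem mod4 {T : AV} {m r : ℕ} {D : Cyc T m} (h : Kdk D r) : m % 4 ≠ 2 := by
  rcases h with ⟨-, h | h⟩ | h
  · omega
  · exact h.1.2.1
  · exact h.1

/-- Different `m`. -/
theorem diff {T T' : AV} {m m' r : ℕ} (D : Cyc T m) (D' : Cyc T' m') (hm : 3 ≤ m) (hm' : 3 ≤ m')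
    (h4 : m % 4 ≠ 2) (h4' : m' % 4 ≠ 2) (hne : m ≠ m') (hr : 3 ≤ r) : Cpw D D' r r := by
  rcases SEE.Cpe_aux.diff D D' hm hm' h4 h4' hne (fun _ => hr) with h | h | h | ⟨h, -⟩ | h | h
  · exact Or.inl h
  · exact Or.inr (Or.inl h)
  · exact Or.inr (Or.inr (Or.inl h))
  · exact absurd h hne
  · exact Or.inr (Or.inr (Or.inr (Or.inr (Or.inl h))))
  · exact Or.inr (Or.inr (Or.inr (Or.inr (Or.inr h))))

/-- Equal `m`, all characters of `D` indefinite. -/
theorem all_ind {T T' : AV} {m r : ℕ} (D : Cyc T m) (D' : Cyc T' m)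
    (hD : ∀ s, D.p s + D.p (-s) = r) (h : ∀ u, 0 < D.p u) : Cpw D D' r r := by
  refine Or.inr (Or.inr (Or.inr (Or.inl ⟨rfl, Or.inr fun g hg u => (hg u (h u) ?_).symm⟩)))
  have h1 := hD u
  have h2 := h (-u)
  omega

end Cpk_aux

open Cpk_aux

/-- Kinds are compatible. -/
theorem tCpk : S_Cpk := by
  intro T T' m m' r r' D D' hg hg' h h'
  by_cases hrr : r = r'
  swap
  · exact Or.inl hrr
  subst hrr
  have h4 := mod4 h
  have h4' := mod4 h'
  have hD : ∀ s, D.p s + D.p (-s) = r := fun s =>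
    (tDim tPj tTw (tBas tPj) T m r D hg.hm hg.dim s).2
  by_cases h3r : 3 ≤ r ∧ ((∀ s, 0 < D.p s) ∨ ∀ s, 0 < D'.p s)
  · obtain ⟨hr3, hpos⟩ := h3r
    by_cases hmm : m = m'
    swap
    · exact diff D D' hg.hm hg'.hm h4 h4' hmm hr3
    subst hmm
    by_cases hall : ∀ s, 0 < D.p s
    · exact all_ind D D' hD hall
    · have hpos' : ∀ s, 0 < D'.p s := hpos.resolve_left hall
      obtain ⟨u₀, hu₀⟩ := not_forall.1 hall
      have hu0 : D.p u₀ = 0 := Nat.eq_zero_of_not_pos hu₀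
      refine Or.inr (Or.inr (Or.inr (Or.inr (Or.inr fun s t => ?_))))
      have hm0 : m ≠ 0 := by
        have := hg.hm
        omega
      refine ⟨m, dvd_rfl, dvd_rfl, hm0, u₀ * s⁻¹, ?_⟩
      have e1 : rho (dvd_refl m) (u₀ * s⁻¹) s = u₀ := by
        unfold rho
        rw [ZMod.unitsMap_self]
        simp
      rw [e1, hu0, zero_mul]
      exact (Nat.mul_pos (hpos' _) (hpos' _)).ne
  · rcases h with ⟨hG, hK⟩ | ⟨-, h3, hp⟩
    · rcases h' with ⟨hG', hK'⟩ | ⟨-, h3, hp⟩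
      · exact cpw_of_cpg hG (tCpe T T' m m' r r D D' hG hG' hK hK')
      · exact absurd ⟨h3, Or.inr hp⟩ h3r
    · exact absurd ⟨h3, Or.inl hp⟩ h3r

end SEG
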