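import Pool.Agent.Lib.SE.G.PPw
import Pool.Agent.Lib.SE.Q.PTg

/-!
# PROJECT SE-G: the product theorem (helper42)
-/

set_option autoImplicit false

open Module

noncomputable section

namespace SEG

open HC HC.E HC.SE SEB SEQ

/-- **THE PRODUCT THEOREM**, without conditions on the signatures. Pairwise non isogenous good factors are independent. -/
def PTw : Prop :=
  ∀ (q : ℕ) (T : Fin q → AV) (m r : Fin q → ℕ) (D : ∀ i, Cyc (T i) (m i)),
    (∀ i, GFw (D i) (r i)) → (∀ i j, i ≠ j → Cpw (D i) (D j) (r i) (r j)) →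
    (∀ i j, i ≠ j → ¬ Isg (T i) (T j)) →
    HC.SE.Big T (fun i => (D i).Z) (fun i => (D i).ψ)

/-- Families of pairwise non isogenous good factors hit everything. -/
theorem hit_all {q : ℕ} {T : Fin q → AV} {m r : Fin q → ℕ} (D : ∀ i, Cyc (T i) (m i))
    (hG : ∀ i, GFw (D i) (r i)) (hC : ∀ i j, i ≠ j → Cpw (D i) (D j) (r i) (r j))
    (hI : ∀ i j, i ≠ j → ¬ Isg (T i) (T j)) (h : Set (Tup T)) (hh : HLieT D h)
    (F : Set (Ch m)) (hF : ∀ x ∈ F, neg x ∉ F) : HitsT D h F := by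
  have hm : ∀ i, 3 ≤ m i := fun i => (hG i).hm
  obtain ⟨h1, h2⟩ := htT_all q T m D hm (fun i => (hG i).hit)
    (fun i j hij h hh s t => tPPw (T i) (T j) (m i) (m j) (r i) (r j) (D i) (D j) (hG i) (hG j)
      (hC i j hij) (hI i j hij) h hh s t) h hh
  exact rbT_all q T m D hm h hh h1 h2 F hF

/-- They are independent: the commutators contain all of `su`. -/
theorem su_all {q : ℕ} {T : Fin q → AV} {m r : Fin q → ℕ} (D : ∀ i, Cyc (T i) (m i))
    (hG : ∀ i, GFw (D i) (r i)) (hC : ∀ i j, i ≠ j → Cpw (D i) (D j) (r i) (r j))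
    (hI : ∀ i j, i ≠ j → ¬ Isg (T i) (T j)) (h : Set (Tup T)) (hh : HLieT D h) (X : Tup T)
    (hX : ∀ i, IsSU (D i) (X i)) : X ∈ Submodule.span ℝ (ComT h) :=
  fiT_all q T m D (fun i => (hG i).hm) h hh (hit_all D hG hC hI h hh) X hX

theorem ptw_all : PTw := fun q T m _ D hG hC hI =>
  bgT_all q T m D fun h hh X hX => su_all D hG hC hI h hh X hX

end SEG
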