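import Pool.Agent.Lib.SE.G.SpecK
import Pool.Agent.Lib.SE.G.PTw
import Pool.Agent.Lib.SE.S.Fn

/-!
# PROJECT SE-G, module Fn: assembly of the final theorem (helper59)
-/

set_option autoImplicit false

open Module

noncomputable section

namespace SEG

open HC HC.E HC.SE SEB SEQ SE SER SEE SES

/-- The meagre sets. -/
def MMk (m r : ℕ) (b : Fin (r + 1) → ℕ) : Set (Fin (r + 1) → ℂ) :=
  MMx m r b ∪ {s | b = (fun _ => 1) ∧ s ∈ MMs m r}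

theorem mmk_meagre (hM : S_Mxm) (m r : ℕ) (b : Fin (r + 1) → ℕ) : IsMeagre (MMk m r b) := by
  refine (hM m r b).union ?_
  refine (mms_meagre m r).mono ?_
  rintro s ⟨-, hs⟩
  exact hs

/-- Dimension 0. -/
theorem isCM_zero {G : AV} (h : finrank ℂ G.V = 0) : IsCM G := by
  have hs : Subsingleton G.V := finrank_zero_iff.1 h
  refine ⟨0, fun _ => ℚ, fun i => i.elim0, fun i => i.elim0, fun i => i.elim0,
    fun i => i.elim0, fun i => i.elim0, ?_⟩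
  have he : IsEmpty ((i : Fin 0) × (Fin.elim0 i : Set (ℚ →+* ℂ))) := ⟨fun x => x.1.elim0⟩
  refine ⟨⟨⟨⟨fun _ => 0, fun _ _ => Subsingleton.elim _ _⟩, fun _ _ => Subsingleton.elim _ _⟩,
    fun _ => 0, fun _ => Subsingleton.elim _ _, fun _ => Subsingleton.elim _ _⟩,
    fun v _ => ⟨fun i => i.elim0, fun i => i.elim0⟩⟩

/-- The factors of the three kinds. -/
def Pk (G : AV) : Prop := (Gok G ∨ IsRM G) ∨ IsSy G

theorem dc_of_fac (hA : S_DcA) (hKe : S_Gke) (hKx : S_Gkx) (hCnv : S_Cnv) (hSur : S_Sur)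
    {G : AV} (h : Fac MMk G) : Dc Pk G := by
  obtain ⟨a1, a2, a3, -⟩ := hA Pk
  rcases h with h | h | h | h | h | h | h
  · exact a1 G h
  · obtain h0 | h1 | h2 : finrank ℂ G.V = 0 ∨ finrank ℂ G.V = 1 ∨ finrank ℂ G.V = 2 := by omega
    · exact a1 G (isCM_zero h0)
    · exact a2 G (Or.inl (Or.inr (hSur.1 G h1)))
    · rcases hSur.2 G h2 with h | h | ⟨E₁, E₂, e1, e2, h⟩ | h
      · exact a1 G h
      · exact a2 G (Or.inl (Or.inr h))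
      · exact a3 G E₁ E₂ (a2 E₁ (Or.inl (Or.inr (hSur.1 E₁ e1))))
          (a2 E₂ (Or.inl (Or.inr (hSur.1 E₂ e2)))) h
      · obtain ⟨E, hE⟩ := G.pol
        exact a2 G (Or.inr ⟨h2.ge, E, hE, h E hE⟩)
  · exact a2 G (Or.inl (Or.inr h))
  · exact a2 G (Or.inr h)
  · refine a2 G (Or.inr (isSy_of_hy ?_))
    obtain ⟨r, s, N, h1, h2, h3, h4⟩ := h
    exact ⟨r, s, N, h1, h2, h3, fun h5 => h4 (Or.inr ⟨rfl, h5⟩)⟩
  · have h' : Gde MMe G := by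
      rcases h with h | ⟨m, r, s, D, h1, h2, h3⟩
      · exact Or.inl h
      · refine Or.inr ⟨m, r, s, D, h1, h2, ?_⟩
        rcases h3 with h3 | h3 | h3
        · exact Or.inl h3
        · exact Or.inr (Or.inl h3)
        · exact Or.inr (Or.inr fun h => h3 (Or.inr ⟨rfl, Or.inl h⟩))
    rcases hKe G h' with h | h
    · exact a1 G h
    · exact a2 G (Or.inl (Or.inl h))
  · obtain ⟨m, r, s, b, N, hc, hr, hu, hs⟩ := h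
    exact a2 G (Or.inl (Or.inl (hKx hCnv G m r s b N hc hr hu fun h => hs (Or.inl h))))

open SEQ.Fn_aux in
/-- **THE FINAL THEOREM**, assembly. -/
theorem finK_of (hI : Ing) (hDcA : S_DcA) (hDcB : S_DcB) (hKe : S_Gke) (hKx : S_Gkx)
    (hCnv : S_Cnv) (hSur : S_Sur) (hMx : S_Mxm) (hCp : S_Cpk) (hP2 : S_P2k) : FinK := by
  refine ⟨MMk, mmk_meagre hMx, ?_⟩
  intro A₀ B T N₀ G₀ hA₀ hG₀ hB₀ q N J j m Z E ψ hF hE hψ d c hc hS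
  obtain ⟨A, N', G, hA, hG', hB⟩ : Dc Pk B := hDcB hDcA Pk A₀ B N₀ G₀ ((hDcA Pk).1 A₀ hA₀)
    (fun n => dc_of_fac hDcA hKe hKx hCnv hSur (hG₀ n)) hB₀
  obtain ⟨B₁, N₁₀, N₃, G₁₀, G₃, hG0, hG3, hB1, hBB⟩ :=
    tSpl (fun G => Gok G ∨ IsRM G) IsSy A B N' G hG' hB
  obtain ⟨Y, N₁', N₂, G₁, G₂, hG1, hG2, hY, hBY⟩ := tSpl Gok IsRM A B₁ N₁₀ G₁₀ hG0 hB1
  obtain ⟨A', q₁, N₁, R, k, hA', hR, hne, hYR⟩ := SEQ.tRep HC.E.tIsoInv Gok A Y N₁' G₁ hA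
    (fun n => Or.inr (hG1 n)) hY
  obtain ⟨q', S, κ, hSy, hne', hBS⟩ := hI.rep HC.E.tIsoInv IsSy B₁ B N₃ G₃ hG3 hBB
  choose m₁ r₁ D₁ h1 h2 h3 using hR
  choose D hDZ hDψ using fun i => cyc_fct (hF i) (hE i)
  obtain rfl : (fun i => (D i).Z) = Z := funext hDZ
  obtain rfl : (fun i => (D i).ψ) = E := funext hDψ
  have hC : ∀ i i', i ≠ i' → Cpw (D₁ i) (D₁ i') (r₁ i) (r₁ i') := fun i i' _ =>
    hCp _ _ _ _ _ _ _ _ (h1 i) (h1 i') (h2 i) (h2 i')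
  have hm1 : ∀ i, 3 ≤ m₁ i := fun i => (h1 i).hm
  have hDA : ∀ (J : AV) (m : ℕ) (Z : Module.End ℂ J.V) (R : J.V →ₗ[ℝ] J.V →ₗ[ℝ] ℝ),
      Fct J m Z → IsPol J Z R → HasDA (fun T m c => HC.SE.Alg2 T m c) m J Z R :=
    fun _ _ _ _ hF hP => SEP.hasDA s_da SEP.s_DAB hF hP
  have hHT : HT D₁ := fun h hh F hF' => SEG.hit_all D₁ h1 hC hne h hh F hF'
  have hp2 : ∀ i, ∃ s, 2 ≤ (D₁ i).p s := fun i => hP2 _ _ _ _ (h1 i) (h2 i)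
  -- the symplectic factors
  choose h2S E' hRf hSp using hSy
  choose f hf using fun i => hI.fm (S i) (E' i) (hRf i)
  have hTu : TuD S E' f := ⟨h2S, hRf, hf, hSp, hne'⟩
  have hLM : ∀ B₂ : AV, LM D₁ B₂ S E' := fun B₂ =>
    hI.lm q₁ q' R m₁ r₁ D₁ B₂ S E' f hTu hm1 (fun i => (h1 i).dim) (h0 D₁ hm1 hHT hp2 B₂)
  refine hI.th A' Y B₁ B T q₁ N₁ N₂ q N R k m₁ D₁ G₂ J j m D q' N₃ S κ E' ψ hA' hRf hLM hG2 hYR
    hBY hBS hψ ?_ (fun C d c hc => hI.hc q' N₃ S κ E' f C hTu d c hc) d c hc hS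
  intro T₁ ψ₁ hψ₁ d₁ c₁ hc₁ hS₁
  exact tThR tHlT tLiR tThQ tLX tOp4 tHr tLiS tKuR tTrR tRg A' Y B₁ T₁ q₁ N₁ N₂ q N R k m₁ D₁ G₂
    J j m D ψ₁ hA' hm1 (fun i => fct_three (hF i))
    (fun i => h3 i (D₁ i).ψ (isPol_cyc (D₁ i)))
    (fun i => hDA _ _ _ _ (hF i) (hE i))
    (fun h hh X hX => SEG.su_all D₁ h1 hC hne h hh X hX)
    (fun B₂ hB₂ => lrf q₁ R m₁ D₁ hm1 hHT hp2 B₂ hB₂)
    hG2 hYR hBY hψ₁ d₁ c₁ hc₁ hS₁

end SEG
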