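import Pool.Agent.Lib.SE.G.SpecK
import Pool.Agent.Lib.SE.E.Gg
import Pool.Agent.Lib.SE.P.All
import Pool.Agent.Lib.SE.All

/-!
# PROJECT SE-G: the class of SE-E consists of good factors (helper61)
-/

set_option autoImplicit false

open Module

noncomputable section

namespace SEG

open HC HC.E HC.SE SEB SEQ SER SE SEE

/-- **Gke**: the class of SE-E. -/
theorem tGke : S_Gke := by
  intro G hG
  rcases tGge G hG with h | ⟨m, r, D, h1, h2, h3⟩
  · exact Or.inl h
  · have hF : Fct G m D.Z := by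
      rcases h3 with h | ⟨s, N, hN, hc⟩
      · exact Or.inr h
      · exact Or.inl ⟨r, s, fun _ => 1, N, hc, hN⟩
    exact Or.inr ⟨m, r, D, gfw_of_gfg h1, Or.inl ⟨h1, h2⟩,
      fun R hR => SEP.hasDA s_da SEP.s_DAB hF hR⟩

end SEG
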