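import Pool.Agent.Lib.SE.G.SpecK
import Pool.Agent.Lib.SE.Big.Gf5
import Pool.Agent.Lib.SE.P.All

/-!
# PROJECT SE-G, module Gkx: new parts of cyclic covers with all exponents, all signatures
indefinite (helper52)
-/

set_option autoImplicit false

open Module

noncomputable section

namespace SEG

open HC HC.E HC.SE SEB SEQ SER SE SEE

theorem tGkx : S_Gkx := by
  intro hCnv G m r s b N hc h3 hpos hs
  have hm : 3 ≤ m := hc.1
  have hW : HypW m r b := by
    refine ⟨1, by omega, Nat.coprime_one_left m,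
      hpos 1 (by omega) (Nat.coprime_one_left m), hpos (m - 1) (by omega) ?_⟩
    exact (Nat.coprime_self_sub_left (by omega)).2 (Nat.coprime_one_left m)
  obtain ⟨D, hD⟩ := tAvg G m (by omega) N.Z N.lat N.cyc
  obtain ⟨-, h2, hdim, hp, -, -, hhit⟩ := full_hit_of_MMx h3 hW hc hs N D hD
  have hG : GFw D r := ⟨hm, h2, hdim, hhit⟩
  have hDp : ∀ u, 0 < D.p u := by
    intro u
    rw [hp]
    have : NeZero m := ⟨by omega⟩
    exact hpos _ (ZMod.val_lt _) (ZMod.val_coe_unit_coprime u)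
  have hda : HDa D := fun R hR =>
    SEP.hasDA s_da SEP.s_DAB (Or.inl ⟨r, s, b, N, hc, hD.symm⟩) hR
  by_cases h4 : m % 4 = 2
  · obtain ⟨k, rfl⟩ : ∃ k, m = 2 * k := ⟨m / 2, by omega⟩
    have hk : Odd k := Nat.odd_iff.2 (by omega)
    obtain ⟨D₀, g0, p0, d0⟩ := hCnv G k r D (by omega) hk hG hDp hda
    exact ⟨k, r, D₀, g0, Or.inr ⟨by omega, h3, p0⟩, d0⟩
  · exact ⟨m, r, D, hG, Or.inr ⟨h4, h3, hDp⟩, hda⟩

end SEG
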