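import Pool.Agent.Lib.SE.G.Spec
import Pool.Agent.Lib.SE.Big.Dim
import Pool.Agent.Lib.SE.Big.Bas
import Pool.Agent.Lib.SE.Big.Pj
import Pool.Agent.Lib.SE.Big.Tw
import Pool.Agent.Lib.HC.L.E.IsoInv

/-!
# PROJECT SE-Q, module Iso: the homomorphism is an isogeny
-/

set_option autoImplicit false

open Module

noncomputable section

namespace SEG

open HC HC.E HC.SE SEB SEQ

namespace Isog_aux

theorem neg_ne {m : ℕ} (hm : 3 ≤ m) (t : (ZMod m)ˣ) : -t ≠ t := by
  intro h
  have h1 : -(t : ZMod m) = (t : ZMod m) := by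
    rw [← Units.val_neg, h]
  have h2 : (t : ZMod m) * 2 = 0 := by
    have h3 : (t : ZMod m) + (t : ZMod m) = 0 := by
      nth_rewrite 1 [← h1]
      exact neg_add_cancel _
    rw [mul_two]
    exact h3
  have h4 : ((2 : ℕ) : ZMod m) = 0 := by
    have h5 := (Units.mul_right_eq_zero t).1 h2
    simpa using h5
  have h6 := (ZMod.natCast_eq_zero_iff 2 m).1 h4
  have h7 := Nat.le_of_dvd (by norm_num) h6
  omega

theorem exists_dual {W : Type*} [AddCommGroup W] [Module ℂ W] {p : Submodule ℂ W} {x : W}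
    (hx : x ∉ p) : ∃ f : Module.Dual ℂ W, f x ≠ 0 ∧ ∀ y ∈ p, f y = 0 := by
  obtain ⟨f, h1, h2⟩ := Submodule.exists_dual_map_eq_bot_of_notMem hx inferInstance
  refine ⟨f, h1, fun y hy => ?_⟩
  have h3 : f y ∈ p.map f := Submodule.mem_map_of_mem hy
  rw [h2] at h3
  exact (Submodule.mem_bot ℂ).1 h3

/-- A map on a vector space whose kernel is stable under all traceless operators is zero or
injective. -/
theorem kern {W U : Type*} [AddCommGroup W] [Module ℂ W] [FiniteDimensional ℂ W] [AddCommGroup U]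
    [Module ℂ U] (f : W →ₗ[ℂ] U)
    (h : ∀ A : Module.End ℂ W, LinearMap.trace ℂ W A = 0 → ∀ x, f x = 0 → f (A x) = 0) (y : W)
    (hy : f y ≠ 0) (x : W) (hx : f x = 0) : x = 0 := by
  by_contra hx0
  have h1 : x ∉ Submodule.span ℂ {y} := by
    intro h2
    obtain ⟨c, hc⟩ := Submodule.mem_span_singleton.1 h2
    rw [← hc, map_smul, smul_eq_zero] at hx
    rcases hx with h3 | h3
    · rw [h3, zero_smul] at hc
      exact hx0 hc.symm
    · exact hy h3
  obtain ⟨φ, hφ1, hφ2⟩ := exists_dual h1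
  have h2 : φ y = 0 := hφ2 y (Submodule.mem_span_singleton_self y)
  have h3 := h (LinearMap.smulRight φ y) (by rw [LinearMap.trace_smulRight, h2]) x hx
  rw [LinearMap.smulRight_apply, map_smul, smul_eq_zero] at h3
  rcases h3 with h4 | h4
  · exact hφ1 h4
  · exact hy h4

theorem theta_pow {T T' : AV} {m : ℕ} (D : Cyc T m) (D' : Cyc T' m) (hm : 3 ≤ m) (g u : (ZMod m)ˣ)
    (Θ : T'.V →ₗ[ℂ] T.V) (hZ : ∀ v, Θ (D'.Z v) = (D.Z ^ (g : ZMod m).val) (Θ v)) (a : Frm T)
    (ha : a ∈ Ws D u) : preH (Θ.restrictScalars ℝ) a ∈ Ws D' (g * u) := by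
  intro v
  have h1 : ∀ (k : ℕ) (w : T.V), a ((D.Z ^ k) w) = zet m u ^ k * a w := by
    intro k
    induction k with
    | zero =>
      intro w
      rw [pow_zero, pow_zero, one_mul]
      rfl
    | succ k ih =>
      intro w
      rw [pow_succ', Module.End.mul_apply, ha, ih, pow_succ']
      ring
  change a (Θ (D'.Z v)) = zet m (g * u) * a (Θ v)
  rw [hZ v, h1, SEB.Dim_aux.zet_pow_val hm u g, mul_comm u g]

end Isog_aux

open Isog_aux

theorem tIsog : S_Prj → S_GaH → S_Isog := by
  intro hPrj hGaH T T' m r D D' g1 g2 h hh g s Θ hRat hZ hX hne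
  have hm := g1.hm
  have : NeZero m := ⟨by omega⟩
  obtain ⟨p1, -, -, -, -⟩ := hPrj T T' m m D D' h hh
  set ΘR : T'.V →ₗ[ℝ] T.V := Θ.restrictScalars ℝ with hΘR
  -- not zero on any eigenspace
  have hnz : ∀ u, ∃ y : Ws D u, preH ΘR (y : Frm T) ≠ 0 := by
    intro u
    by_contra hc
    push Not at hc
    obtain ⟨a, ha, ha0⟩ := hne
    have h1 := hGaH T T' m m D D' hm hm m (dvd_refl m) (dvd_refl m) (by omega) ΘR hRat u (g * u)
      (s * u⁻¹) (fun b hb => by rw [hc ⟨b, hb⟩, map_zero])
    have h2 : ∀ w : (ZMod m)ˣ, rho (dvd_refl m) (s * u⁻¹) w = s * u⁻¹ * w := by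
      intro w
      unfold rho
      rw [ZMod.unitsMap_self]
      rfl
    have h3 : s * u⁻¹ * u = s := inv_mul_cancel_right s u
    have h4 : s * u⁻¹ * (g * u) = g * s := by
      rw [mul_comm g u, ← mul_assoc, h3, mul_comm]
    rw [h2, h2, h3, h4] at h1
    have h5 := h1 a ha
    rw [(tPj T' m D' hm).2.2.1 _ _ (theta_pow D D' hm g s Θ hZ a ha)] at h5
    exact ha0 h5
  -- the kernel is stable
  have hst : ∀ C ∈ gg (Prod.fst '' h), ∀ a : Frm T, preH ΘR a = 0 → preH ΘR (C a) = 0 := by
    intro C hC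
    induction hC using Submodule.span_induction with
    | mem C hC =>
      obtain ⟨Y, ⟨X, ⟨x, hx, rfl⟩, X', ⟨x', hx', rfl⟩, rfl⟩, rfl⟩ := hC
      intro a ha
      have ha' : ∀ v, a (Θ v) = 0 := fun v => LinearMap.congr_fun ha v
      refine LinearMap.ext fun v => ?_
      change a ((x.1 * x'.1 - x'.1 * x.1) (Θ v)) = 0
      rw [LinearMap.sub_apply, Module.End.mul_apply, Module.End.mul_apply, hX x' hx' v,
        hX x hx v, hX x hx, hX x' hx', map_sub, ha', ha', sub_zero]
    | zero =>
      intro a _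
      rw [LinearMap.zero_apply, map_zero]
    | add C C' _ _ h1 h2 =>
      intro a ha
      rw [LinearMap.add_apply, map_add, h1 a ha, h2 a ha, add_zero]
    | smul c C _ h1 =>
      intro a ha
      rw [LinearMap.smul_apply, map_smul, h1 a ha, smul_zero]
  -- injective on every eigenspace
  have hinj : ∀ u, ∀ x ∈ Ws D u, preH ΘR x = 0 → x = 0 := by
    intro u x hx hx0
    have hD := (tDim tPj tTw (tBas tPj) T m r D g1.hm g1.dim u).1
    have hr := g1.hr
    have hf : Module.Finite ℂ (Ws D u) := Module.finite_of_finrank_pos (by omega)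
    obtain ⟨y, hy⟩ := hnz u
    have h1 := kern (W := Ws D u) ((preH ΘR).comp (Ws D u).subtype) (by
      intro A hA z hz
      classical
      obtain ⟨C, hC, hC1⟩ := g1.hit _ p1 {u} (by
        intro w hw hw'
        rw [Set.mem_singleton_iff] at hw hw'
        rw [hw] at hw'
        exact neg_ne hm u hw') (fun w => if hw : w = u then hw ▸ A else 0) (by
        intro w
        by_cases hw : w = u
        · subst hw
          simpa using hA
        · simp [hw])
      have h2 := hC1 u (Set.mem_singleton u) z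
      have h3 : C (z : Frm T) = (A z : Frm T) := by
        simpa using h2
      change preH ΘR ((A z : Ws D u) : Frm T) = 0
      rw [← h3]
      exact hst C hC _ hz) y hy ⟨x, hx⟩ hx0
    exact congrArg Subtype.val h1
  -- injective on the forms
  have hinj2 : ∀ a : Frm T, preH ΘR a = 0 → a = 0 := by
    intro a ha
    have h1 : a ∈ ⨆ u, Ws D u := by
      rw [(tBas tPj T m D hm).1]
      exact Submodule.mem_top
    obtain ⟨f, hf, hfa⟩ := (Submodule.mem_iSup_iff_exists_finsupp _ _).1 h1
    have h2 : ∀ u, f u = 0 := by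
      intro u
      refine hinj u _ (hf u) ?_
      have h3 : pj D' (g * u) (preH ΘR a) = preH ΘR (f u) := by
        rw [← hfa, Finsupp.sum, map_sum, map_sum]
        have h4 : ∀ w, w ≠ u → pj D' (g * u) (preH ΘR (f w)) = 0 := by
          intro w hw
          refine (tPj T' m D' hm).2.2.2 (g * w) (g * u) ?_ _
            (theta_pow D D' hm g w Θ hZ _ (hf w))
          intro h5
          exact hw (mul_left_cancel h5)
        by_cases hu : u ∈ f.support
        · rw [Finset.sum_eq_single u (fun w _ hw => h4 w hw) (fun h5 => absurd hu h5)]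
          exact (tPj T' m D' hm).2.2.1 _ _ (theta_pow D D' hm g u Θ hZ _ (hf u))
        · rw [Finset.sum_eq_zero fun w hw => h4 w (fun h5 => hu (h5 ▸ hw)),
            Finsupp.notMem_support_iff.1 hu, map_zero]
      rw [ha, map_zero] at h3
      exact h3.symm
    rw [← hfa, Finsupp.sum]
    exact Finset.sum_eq_zero fun u _ => h2 u
  -- surjective
  have hsurj : Function.Surjective Θ := by
    rw [← LinearMap.range_eq_top]
    by_contra hc
    obtain ⟨w, -, hw⟩ := SetLike.exists_of_lt (lt_top_iff_ne_top.2 hc)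
    obtain ⟨φ, hφ1, hφ2⟩ := exists_dual hw
    have h1 : (φ.restrictScalars ℝ : Frm T) = 0 := by
      refine hinj2 _ (LinearMap.ext fun v => ?_)
      exact hφ2 (Θ v) (LinearMap.mem_range_self Θ v)
    exact hφ1 (LinearMap.congr_fun h1 w)
  have hfr : finrank ℂ T'.V = finrank ℂ T.V := by
    have h1 := g1.dim
    have h2 := g2.dim
    omega
  have hbij : Function.Bijective Θ :=
    ⟨(LinearMap.injective_iff_surjective_of_finrank_eq_finrank hfr).2 hsurj, hsurj⟩
  let e : T'.V ≃ₗ[ℂ] T.V := LinearEquiv.ofBijective Θ hbij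
  exact ⟨e.symm, tIsoInv T' T e hRat⟩

end SEG
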