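import Pool.Agent.Lib.SE.G.Spec
import Pool.Agent.Lib.SE.E.Cp
import Pool.Agent.Lib.SE.Q.B

/-!
# PROJECT SE-G: the kinds of factors (helper42)
-/

set_option autoImplicit false

open Module

noncomputable section

namespace SEG

open HC HC.E HC.SE SEB SEQ SE SEE SEE.Cpe_aux SEQ.B_aux

variable {T T' : AV} {m m' r r' : ℕ}

/-- The kinds of good factors: (A) rank `≥ 3`, no signature is definite; (B) the signatures of
`y ^ m = f(x)`. -/
def Kdw (D : Cyc T m) (r : ℕ) : Prop :=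
  (GFw D r ∧ m % 4 ≠ 2 ∧ 3 ≤ r ∧ ∀ u, 0 < D.p u) ∨
    (GFg D r ∧ Cle m r ∧ ∀ u : (ZMod m)ˣ, D.p u = sg m r (fun _ => 1) (u : ZMod m).val)

theorem Kdw.gfw {D : Cyc T m} (h : Kdw D r) : GFw D r := by
  rcases h with h | h
  · exact h.1
  · exact gfw_of_gfg h.1

/-- From the kinds of SE/E. -/
theorem kdw_of_kde {D : Cyc T m} (hg : GFg D r) (h : Kde D r) : Kdw D r := by
  rcases h with ⟨hm, hr, s, hs⟩ | ⟨hc, hsg⟩
  · have hD : ∀ s, D.p s + D.p (-s) = r := fun s =>
      (tDim tPj tTw (tBas tPj) T m r D hg.hm hg.dim s).2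
    exact Or.inl ⟨gfw_of_gfg hg, by omega, hr,
      fun u => (ind1 D hD hm (s := s) (by omega) (by omega) u).1⟩
  · exact Or.inr ⟨hg, hc, hsg⟩

/-- The kinds are compatible. -/
theorem cpw_all {D : Cyc T m} {D' : Cyc T' m'} (h : Kdw D r) (h' : Kdw D' r') :
    Cpw D D' r r' := by
  by_cases hrr : r = r'
  swap
  · exact Or.inl hrr
  subst hrr
  have hg := h.gfw
  have hg' := h'.gfw
  have hD : ∀ s, D.p s + D.p (-s) = r := fun s =>
    (tDim tPj tTw (tBas tPj) T m r D hg.hm hg.dim s).2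
  have h4 : m % 4 ≠ 2 := by
    rcases h with h | h
    · exact h.2.1
    · exact h.2.1.2.1
  have h4' : m' % 4 ≠ 2 := by
    rcases h' with h | h
    · exact h.2.1
    · exact h.2.1.2.1
  by_cases hmm : m = m'
  swap
  · -- different fields
    have hr3 : (m = 3 ∨ m' = 3) → 3 ≤ r := by
      intro h3
      rcases h with h | h
      · exact h.2.2.1
      rcases h' with h' | h'
      · exact h'.2.2.1
      have h2 := h.2.1.2.2.1
      rcases Nat.lt_or_ge 2 r with h5 | h5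
      · exact h5
      · exfalso
        have h2 : r = 2 := by omega
        subst h2
        rcases h3 with rfl | rfl
        · exact h.2.1.2.2.2.1 ⟨1, rfl⟩
        · exact h'.2.1.2.2.2.1 ⟨1, rfl⟩
    rcases diff D D' hg.hm hg'.hm h4 h4' hmm hr3 with c | c | c | c | c | c
    · exact Or.inl c
    · exact Or.inr (Or.inl c)
    · exact Or.inr (Or.inr (Or.inl c))
    · exact absurd c.1 hmm
    · exact Or.inr (Or.inr (Or.inr (Or.inr (Or.inl c))))
    · exact Or.inr (Or.inr (Or.inr (Or.inr (Or.inr c))))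
  subst hmm
  -- all characters of `D` indefinite
  have ind : (∀ u, 0 < D.p u ∧ D.p u < r) → Cpw D D' r r := fun hi =>
    Or.inr (Or.inr (Or.inr (Or.inl ⟨rfl,
      Or.inr fun g hgu u => (hgu u (hi u).1 (hi u).2).symm⟩)))
  rcases h with ⟨-, -, -, hp⟩ | ⟨hG, hc, hsg⟩
  · refine ind fun u => ⟨hp u, ?_⟩
    have := hD u
    have := hp (-u)
    omega
  rcases h' with ⟨-, -, hr3, hp'⟩ | ⟨hG', hc', hsg'⟩
  · by_cases hall : ∀ u, 0 < D.p u
    · refine ind fun u => ⟨hall u, ?_⟩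
      have := hD u
      have := hall (-u)
      omega
    · -- a definite character of `D`
      push Not at hall
      obtain ⟨u₀, hu₀⟩ := hall
      refine Or.inr (Or.inr (Or.inr (Or.inr (Or.inr fun s t => ?_))))
      refine ⟨m, dvd_rfl, dvd_rfl, by have := hg.hm; omega, u₀ * s⁻¹, ?_⟩
      rw [rho_self, rho_self, inv_mul_cancel_right, Nat.le_zero.1 hu₀, zero_mul]
      exact (Nat.mul_pos (hp' _) (hp' _)).ne
  · refine Or.inr (Or.inr (Or.inr (Or.inl ⟨rfl, Or.inl ⟨hG.ap, hG.ex, 1, fun u => ?_⟩⟩)))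
    change D.p u = D'.p (1 * u)
    rw [one_mul, hsg, hsg']

/-- A character with `2 ≤ p`. -/
theorem p2w {D : Cyc T m} (h : Kdw D r) : ∃ s, 2 ≤ D.p s := by
  have hg := h.gfw
  rcases Nat.lt_or_ge 2 r with hr | hr
  · have h1 := (tDim tPj tTw (tBas tPj) T m r D hg.hm hg.dim 1).2
    rcases Nat.lt_or_ge (D.p 1) 2 with h2 | h2
    · exact ⟨-1, by omega⟩
    · exact ⟨1, h2⟩
  · rcases h with h | h
    · exfalso
      have := h.2.2.1
      omega
    · exact tP2e T m r D h.1 (Or.inr h.2)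

end SEG
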