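import Pool.Agent.Lib.SE.G.Spec
import Pool.Agent.Lib.SE.Big.FTwo
import Pool.Agent.Lib.SE.Big.Dim
import Pool.Agent.Lib.SE.Big.Bas
import Pool.Agent.Lib.SE.Big.Pj
import Pool.Agent.Lib.SE.Big.Tw

/-!
# PROJECT SE-Q, module Lrg: links are transported (helper37)
-/

set_option autoImplicit false

open Module

noncomputable section

namespace SEG

open HC HC.E HC.SE SEB SEQ

namespace Lrg_aux

variable {T T' : AV} {m m' : ℕ}

theorem ne_neg (hm : 3 ≤ m) (s : (ZMod m)ˣ) : -s ≠ s := by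
  intro h
  have h1 : (s : ZMod m) + s = 0 := by
    have h2 := congrArg (fun u : (ZMod m)ˣ => (u : ZMod m)) h
    have h3 : -(s : ZMod m) = s := h2
    calc (s : ZMod m) + s = -(s : ZMod m) + s := by rw [h3]
      _ = 0 := neg_add_cancel _
  have h4 : ((2 : ℕ) : ZMod m) = 0 := by
    have h5 : (2 : ZMod m) * s = 0 := by rw [two_mul, h1]
    have h6 := congrArg (fun x => x * ((s⁻¹ : (ZMod m)ˣ) : ZMod m)) h5
    simp only [mul_assoc, Units.mul_inv, mul_one, zero_mul] at h6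
    exact_mod_cast h6
  rw [ZMod.natCast_eq_zero_iff] at h4
  have := Nat.le_of_dvd (by norm_num) h4
  omega

theorem hit1 {r : ℕ} {D : Cyc T m} (hG : GFw D r) {h : Set (Module.End ℝ T.V)} (hh : HLie D h)
    (s : (ZMod m)ˣ) : Hits D h {s} :=
  hG.hit h hh {s} fun u hu hu' => ne_neg hG.hm s (by
    obtain rfl : u = s := hu
    exact hu')

/-- The restriction of an operator commuting with `Z`. -/
def rs (D : Cyc T m) (s : (ZMod m)ˣ) (X : Module.End ℝ T.V)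
    (hX : ∀ v, X (D.Z v) = D.Z (X v)) : Module.End ℂ (Ws D s) :=
  (pre X).restrict (p := Ws D s) (q := Ws D s) (by
    intro a ha v
    change a (X (D.Z v)) = zet m s * a (X v)
    rw [hX v]
    exact ha (X v))

theorem comb (D : Cyc T m) (s : (ZMod m)ˣ) (n : ℕ) (Y : Fin n → Module.End ℝ T.V)
    (hY : ∀ i, ∀ v, Y i (D.Z v) = D.Z (Y i v)) (c : Fin n → ℂ)
    (a : Ws D s) : ∑ i, c i • pre (Y i) (a : Frm T) =
      (((∑ i, c i • rs D s (Y i) (hY i)) a : Ws D s) : Frm T) := by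
  rw [LinearMap.sum_apply, AddSubmonoidClass.coe_finsetSum]
  exact Finset.sum_congr rfl fun i _ => rfl

theorem comb0 (D : Cyc T m) (s : (ZMod m)ˣ) (n : ℕ) (Y : Fin n → Module.End ℝ T.V)
    (hY : ∀ i, ∀ v, Y i (D.Z v) = D.Z (Y i v)) (c : Fin n → ℂ) :
    (∀ a ∈ Ws D s, ∑ i, c i • pre (Y i) a = 0) ↔ ∑ i, c i • rs D s (Y i) (hY i) = 0 := by
  constructor
  · intro h0
    refine LinearMap.ext fun a => Subtype.ext ?_
    rw [← comb D s n Y hY c a]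
    exact h0 _ a.2
  · intro h0 a ha
    have h1 := comb D s n Y hY c ⟨a, ha⟩
    rw [h0] at h1
    exact h1

variable {D : Cyc T m} {D' : Cyc T' m'} {h : Set (Pr2 T T')}

theorem com_sub (hh : HLie2 D D' h) {Y : Pr2 T T'} (hY : Y ∈ Com2 h) : Y ∈ h := by
  obtain ⟨X, hX, X', hX', rfl⟩ := hY
  exact hh.br X hX X' hX'

/-- The pairs of restrictions. -/
def PP2 (D : Cyc T m) (D' : Cyc T' m') (h : Set (Pr2 T T')) (s : (ZMod m)ˣ) (t : (ZMod m')ˣ) :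
    Submodule ℂ (Module.End ℂ (Ws D s) × Module.End ℂ (Ws D' t)) where
  carrier := {x | ∃ C ∈ gg2 h, (∀ a : Ws D s, C.1 (a : Frm T) = (x.1 a : Frm T)) ∧
    ∀ b : Ws D' t, C.2 (b : Frm T') = (x.2 b : Frm T')}
  zero_mem' := ⟨0, zero_mem _, fun _ => rfl, fun _ => rfl⟩
  add_mem' := by
    rintro x y ⟨C, hC, h1, h2⟩ ⟨C', hC', h1', h2'⟩
    refine ⟨C + C', add_mem hC hC', fun a => ?_, fun a => ?_⟩
    · rw [Prod.fst_add, LinearMap.add_apply, h1, h1']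
      rfl
    · rw [Prod.snd_add, LinearMap.add_apply, h2, h2']
      rfl
  smul_mem' := by
    rintro c x ⟨C, hC, h1, h2⟩
    refine ⟨c • C, Submodule.smul_mem _ _ hC, fun a => ?_, fun a => ?_⟩
    · rw [Prod.smul_fst, LinearMap.smul_apply, h1]
      rfl
    · rw [Prod.smul_snd, LinearMap.smul_apply, h2]
      rfl

theorem PP2_tr (hPrj : S_Prj) (hm : 3 ≤ m) (hm' : 3 ≤ m') (hh : HLie2 D D' h) (s : (ZMod m)ˣ)
    (t : (ZMod m')ˣ) : ∀ x ∈ PP2 D D' h s t,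
    LinearMap.trace ℂ (Ws D s) x.1 = 0 ∧ LinearMap.trace ℂ (Ws D' t) x.2 = 0 := by
  rintro x ⟨C, hC, h1, h2⟩
  obtain ⟨p1, p2, -, -, p5⟩ := hPrj T T' m m' D D' h hh
  constructor
  · obtain ⟨A', hA1, hA2⟩ := (tCl (tBas tPj) T m D hm _ p1).2.2 C.1 (p5 C hC).1 s
    have : x.1 = A' := LinearMap.ext fun a => Subtype.ext (by rw [← h1, hA2])
    rw [this, hA1]
  · obtain ⟨A', hA1, hA2⟩ := (tCl (tBas tPj) T' m' D' hm' _ p2).2.2 C.2 (p5 C hC).2 t
    have : x.2 = A' := LinearMap.ext fun a => Subtype.ext (by rw [← h2, hA2])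
    rw [this, hA1]

theorem upd {h1 : Set (Module.End ℝ T.V)} {s : (ZMod m)ˣ} (hs : Hits D h1 {s})
    (X : Module.End ℂ (Ws D s)) (hX : LinearMap.trace ℂ (Ws D s) X = 0) :
    ∃ C ∈ gg h1, ∀ a : Ws D s, C (a : Frm T) = (X a : Frm T) := by
  classical
  obtain ⟨C, hC, hCA⟩ := hs (Function.update (fun s' => (0 : Module.End ℂ (Ws D s'))) s X) (by
    intro s'
    by_cases hb : s' = s
    · subst hb
      rw [Function.update_self]
      exact hX
    · rw [Function.update_of_ne hb, map_zero])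
  refine ⟨C, hC, fun a => ?_⟩
  have h1 := hCA s rfl a
  rw [Function.update_self] at h1
  exact h1

theorem PP2_fst (hPrj : S_Prj) (hm' : 3 ≤ m') (hh : HLie2 D D' h) (s : (ZMod m)ˣ)
    (t : (ZMod m')ˣ) (hs : Hits D (Prod.fst '' h) {s}) :
    ∀ X : Module.End ℂ (Ws D s), LinearMap.trace ℂ (Ws D s) X = 0 →
      ∃ Y, (X, Y) ∈ PP2 D D' h s t := by
  intro X hX
  obtain ⟨p1, p2, p3, -, p5⟩ := hPrj T T' m m' D D' h hh
  obtain ⟨C, hC, hCA⟩ := upd hs X hX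
  obtain ⟨C', hC', rfl⟩ := p3 C hC
  obtain ⟨Y, -, hY⟩ := (tCl (tBas tPj) T' m' D' hm' _ p2).2.2 C'.2 (p5 C' hC').2 t
  exact ⟨Y, C', hC', hCA, hY⟩

theorem PP2_snd (hPrj : S_Prj) (hm : 3 ≤ m) (hh : HLie2 D D' h) (s : (ZMod m)ˣ)
    (t : (ZMod m')ˣ) (ht : Hits D' (Prod.snd '' h) {t}) :
    ∀ Y : Module.End ℂ (Ws D' t), LinearMap.trace ℂ (Ws D' t) Y = 0 →
      ∃ X, (X, Y) ∈ PP2 D D' h s t := by
  intro X hX
  obtain ⟨p1, p2, -, p4, p5⟩ := hPrj T T' m m' D D' h hh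
  obtain ⟨C, hC, hCA⟩ := upd ht X hX
  obtain ⟨C', hC', rfl⟩ := p4 C hC
  obtain ⟨Y, -, hY⟩ := (tCl (tBas tPj) T m D hm _ p1).2.2 C'.1 (p5 C' hC').1 s
  exact ⟨Y, C', hC', hY, hCA⟩

theorem PP2_gr {s : (ZMod m)ˣ} {t : (ZMod m')ˣ} (hl : Lnk D D' h s t) :
    ∀ x ∈ PP2 D D' h s t, (x.1 = 0 ↔ x.2 = 0) := by
  rintro x ⟨C, hC, h1, h2⟩
  have h3 := hl C hC
  have e1 : x.1 = 0 ↔ ∀ a ∈ Ws D s, C.1 a = 0 := by
    constructor
    · intro h0 a ha
      have := h1 ⟨a, ha⟩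
      rw [h0] at this
      exact this
    · intro h0
      refine LinearMap.ext fun a => Subtype.ext ?_
      rw [← h1]
      exact h0 _ a.2
  have e2 : x.2 = 0 ↔ ∀ b ∈ Ws D' t, C.2 b = 0 := by
    constructor
    · intro h0 a ha
      have := h2 ⟨a, ha⟩
      rw [h0] at this
      exact this
    · intro h0
      refine LinearMap.ext fun a => Subtype.ext ?_
      rw [← h2]
      exact h0 _ a.2
  rw [e1, e2, h3]

/-- The pair of restrictions of a commutator. -/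
def RR (hh : HLie2 D D' h) (s : (ZMod m)ˣ) (t : (ZMod m')ˣ) (Y : Com2 h) :
    Module.End ℂ (Ws D s) × Module.End ℂ (Ws D' t) :=
  (rs D s Y.1.1 (hh.u _ (com_sub hh Y.2)).1.1, rs D' t Y.1.2 (hh.u _ (com_sub hh Y.2)).2.1)

theorem PP2_span (hh : HLie2 D D' h) (s : (ZMod m)ˣ) (t : (ZMod m')ˣ) :
    PP2 D D' h s t = Submodule.span ℂ (Set.range (RR hh s t)) := by
  apply le_antisymm
  · rintro x ⟨C, hC, h1, h2⟩
    have key : ∃ y ∈ Submodule.span ℂ (Set.range (RR hh s t)),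
        (∀ a : Ws D s, C.1 (a : Frm T) = (y.1 a : Frm T)) ∧
        ∀ a : Ws D' t, C.2 (a : Frm T') = (y.2 a : Frm T') := by
      clear h1 h2
      refine Submodule.span_induction (p := fun C _ =>
        ∃ y ∈ Submodule.span ℂ (Set.range (RR hh s t)),
        (∀ a : Ws D s, C.1 (a : Frm T) = (y.1 a : Frm T)) ∧
        ∀ a : Ws D' t, C.2 (a : Frm T') = (y.2 a : Frm T')) ?_ ?_ ?_ ?_ hC
      · rintro _ ⟨Y, hY, rfl⟩
        exact ⟨RR hh s t ⟨Y, hY⟩, Submodule.subset_span ⟨_, rfl⟩, fun _ => rfl, fun _ => rfl⟩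
      · exact ⟨0, zero_mem _, fun _ => rfl, fun _ => rfl⟩
      · rintro A B _ _ ⟨y, hy, h1, h2⟩ ⟨y', hy', h1', h2'⟩
        refine ⟨y + y', add_mem hy hy', fun a => ?_, fun a => ?_⟩
        · rw [Prod.fst_add, LinearMap.add_apply, h1, h1']
          rfl
        · rw [Prod.snd_add, LinearMap.add_apply, h2, h2']
          rfl
      · rintro c A _ ⟨y, hy, h1, h2⟩
        refine ⟨c • y, Submodule.smul_mem _ _ hy, fun a => ?_, fun a => ?_⟩
        · rw [Prod.smul_fst, LinearMap.smul_apply, h1]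
          rfl
        · rw [Prod.smul_snd, LinearMap.smul_apply, h2]
          rfl
    obtain ⟨y, hy, h1', h2'⟩ := key
    have : x = y := Prod.ext (LinearMap.ext fun a => Subtype.ext (by rw [← h1, h1']))
      (LinearMap.ext fun a => Subtype.ext (by rw [← h2, h2']))
    rw [this]
    exact hy
  · refine Submodule.span_le.2 ?_
    rintro _ ⟨Y, rfl⟩
    exact ⟨pre2 Y.1, Submodule.subset_span ⟨Y.1, Y.2, rfl⟩, fun _ => rfl, fun _ => rfl⟩

theorem PP2_le (hLI : S_LI2) (hm : 3 ≤ m) (hm' : 3 ≤ m') (hh : HLie2 D D' h) (s : (ZMod m)ˣ)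
    (t : (ZMod m')ˣ) (hf : ∀ s, FiniteDimensional ℂ (Ws D s))
    (hf' : ∀ t, FiniteDimensional ℂ (Ws D' t)) {M : ℕ} (hM : m ∣ M) (hM' : m' ∣ M) (hM0 : M ≠ 0)
    (ρ : (ZMod M)ˣ) :
    finrank ℂ (PP2 D D' h (rho hM ρ s) (rho hM' ρ t)) ≤ finrank ℂ (PP2 D D' h s t) := by
  have := hf s
  have := hf' t
  have := hf (rho hM ρ s)
  have := hf' (rho hM' ρ t)
  rw [PP2_span hh (rho hM ρ s) (rho hM' ρ t), PP2_span hh s t]
  refine FTwo_aux.span_le_of_rel (RR hh (rho hM ρ s) (rho hM' ρ t)) (RR hh s t)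
    fun n Y c hc0 hc => ?_
  have hY1 : ∀ j, ∀ v, (Y j).1.1 (D.Z v) = D.Z ((Y j).1.1 v) :=
    fun j => (hh.u _ (com_sub hh (Y j).2)).1.1
  have hY2 : ∀ j, ∀ v, (Y j).1.2 (D'.Z v) = D'.Z ((Y j).1.2 v) :=
    fun j => (hh.u _ (com_sub hh (Y j).2)).2.1
  have hc1 : ∑ i, c i • rs D s (Y i).1.1 (hY1 i) = 0 := by
    have := congrArg Prod.fst hc
    rw [Prod.fst_sum] at this
    exact this
  have hc2 : ∑ i, c i • rs D' t (Y i).1.2 (hY2 i) = 0 := by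
    have := congrArg Prod.snd hc
    rw [Prod.snd_sum] at this
    exact this
  obtain ⟨c', hc', hr1, hr2⟩ := hLI T T' m m' D D' hm hm' M hM hM' hM0 n (fun i => (Y i).1)
    (fun j => ⟨⟨(hh.rat _ (com_sub hh (Y j).2)).1, hY1 j⟩,
      (hh.rat _ (com_sub hh (Y j).2)).2, hY2 j⟩) s t c hc0
    ((comb0 D s n (fun i => (Y i).1.1) hY1 c).2 hc1)
    ((comb0 D' t n (fun i => (Y i).1.2) hY2 c).2 hc2) ρ
  refine ⟨c', hc', ?_⟩
  have h1' := (comb0 D (rho hM ρ s) n (fun i => (Y i).1.1) hY1 c').1 hr1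
  have h2' := (comb0 D' (rho hM' ρ t) n (fun i => (Y i).1.2) hY2 c').1 hr2
  refine Prod.ext ?_ ?_
  · rw [Prod.fst_sum]
    exact h1'
  · rw [Prod.snd_sum]
    exact h2'

end Lrg_aux

open Lrg_aux in
theorem tLrg : S_Lrg := by
  intro hPrj _ hGt hLI T T' m m' r r' D D' hG hG' h hh s t hl
  obtain ⟨p1, p2, -, -, -⟩ := hPrj T T' m m' D D' h hh
  have hDim := tDim tPj tTw (tBas tPj)
  have hd : ∀ s, finrank ℂ (Ws D s) = r := fun s => (hDim T m r D hG.hm hG.dim s).1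
  have hd' : ∀ t, finrank ℂ (Ws D' t) = r' := fun t => (hDim T' m' r' D' hG'.hm hG'.dim t).1
  have hr := hG.hr
  have hr' := hG'.hr
  have hf : ∀ s, FiniteDimensional ℂ (Ws D s) := fun s =>
    .of_finrank_pos (by rw [hd s]; omega)
  have hf' : ∀ t, FiniteDimensional ℂ (Ws D' t) := fun t =>
    .of_finrank_pos (by rw [hd' t]; omega)
  have hsl : ∀ s, finrank ℂ (LinearMap.ker (LinearMap.trace ℂ (Ws D s))) + 1 = r * r := fun s =>
    All_aux.fin_sl (Ws D s) r (by omega) (hd s)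
  have hsl' : ∀ t, finrank ℂ (LinearMap.ker (LinearMap.trace ℂ (Ws D' t))) + 1 = r' * r' :=
    fun t => All_aux.fin_sl (Ws D' t) r' (by omega) (hd' t)
  have hGr : FTwo_aux.Gr (PP2 D D' h s t) :=
    ⟨PP2_tr hPrj hG.hm hG'.hm hh s t, PP2_fst hPrj hG'.hm hh s t (hit1 hG p1 s),
      PP2_snd hPrj hG.hm hh s t (hit1 hG' p2 t), PP2_gr hl⟩
  have e1 := hsl s
  have e2 := hsl' t
  have d1 := hGr.d1
  have d2 := hGr.d2
  have hrr : r = r' := by
    have h3 : r * r = r' * r' := by omega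
    exact Nat.mul_self_inj.1 h3
  refine ⟨hrr, fun M hM hM' hM0 ρ => ?_⟩
  rcases hGt T T' m m' D D' hG.hm hG'.hm h hh (rho hM ρ s) (rho hM' ρ t) (hit1 hG p1 _)
    (hit1 hG' p2 _) with h1 | h1
  · exfalso
    have hle := PP2_le hLI hG.hm hG'.hm hh s t hf hf' hM hM' hM0 ρ
    have := hf (rho hM ρ s)
    have := hf' (rho hM' ρ t)
    have h4 := FTwo_aux.all_dim (P := PP2 D D' h (rho hM ρ s) (rho hM' ρ t)) fun X Y hX hY => by
      obtain ⟨C, hC, h5, h6⟩ := h1 X Y hX hY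
      exact ⟨C, hC, h5, h6⟩
    have e3 := hsl (rho hM ρ s)
    have e4 := hsl' (rho hM' ρ t)
    have h5 : 4 ≤ r * r := Nat.mul_le_mul hr hr
    omega
  · exact h1

end SEG
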