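import Pool.Agent.Lib.SE.G.Spec
import Pool.Agent.Lib.SE.Big.Bas
import Pool.Agent.Lib.SE.Q.TrE

/-!
# PROJECT SE-G: from `Z` of order `2 m`, `m` odd, to `-Z` of order `m` (helper42)
-/

set_option autoImplicit false

open Module Polynomial

noncomputable section

namespace SEG

open HC HC.E HC.SE SEB SEQ SEB.Bas_aux SEQ.TrE_aux

/-- Minus a primitive root of order `2 m`, `m` odd, has order `m`. -/
theorem neg_root {R : Type} [CommRing R] [IsDomain R] {m : ℕ} (ho : Odd m) (hm : 1 < m) {ζ : R}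
    (h : IsPrimitiveRoot ζ (2 * m)) : IsPrimitiveRoot (-ζ) m := by
  have h1 : ζ ^ m = -1 := by
    have h2 : IsPrimitiveRoot (ζ ^ m) 2 := h.pow (by omega) (by ring)
    exact h2.eq_neg_one_of_two_right
  obtain ⟨k, hk⟩ := ho
  have h3 : -ζ = (ζ ^ 2) ^ (k + 1) := by
    have h4 : ζ ^ m * ζ = (ζ ^ 2) ^ (k + 1) := by
      rw [← pow_succ, ← pow_mul]
      congr 1
      omega
    rw [← h4, h1]
    ring
  rw [h3]
  refine (h.pow (by omega) rfl).pow_of_coprime _ ?_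
  have h5 : m = 2 * (k + 1) - 1 := by omega
  rw [Nat.coprime_comm, h5]
  have h6 : Nat.Coprime (2 * (k + 1) - 1) (2 * (k + 1)) := by
    have := Nat.coprime_self_sub_left (m := 1) (n := 2 * (k + 1)) (by omega)
    exact (this.2 (Nat.coprime_one_left _))
  exact h6.coprime_mul_left_right

/-- The other direction. -/
theorem neg_root' {R : Type} [CommRing R] [IsDomain R] [CharZero R] {m : ℕ} (ho : Odd m)
    {ζ : R} (h : IsPrimitiveRoot ζ m) : IsPrimitiveRoot (-ζ) (2 * m) := by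
  have h2 : IsPrimitiveRoot (-1 : R) 2 := IsPrimitiveRoot.neg_one 0 (by norm_num)
  have h3 := (Commute.all (-1 : R) ζ).orderOf_mul_eq_mul_orderOf_of_coprime (by
    rw [← h2.eq_orderOf, ← h.eq_orderOf]
    exact (Nat.coprime_two_left).2 ho)
  rw [← h2.eq_orderOf, ← h.eq_orderOf, neg_one_mul] at h3
  rw [← h3]
  exact IsPrimitiveRoot.orderOf _

theorem cyc_neg {V : Type} [AddCommGroup V] [Module ℂ V] (Z : V →ₗ[ℂ] V) {m : ℕ} (ho : Odd m)
    (hm : 1 < m) (h : Polynomial.aeval Z (cyclotomic (2 * m) ℤ) = 0) :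
    Polynomial.aeval (-Z) (cyclotomic m ℤ) = 0 := by
  have hζ := Complex.isPrimitiveRoot_exp (2 * m) (by omega)
  have h1 : cyclotomic (2 * m) ℤ ∣ (cyclotomic m ℤ).comp (-X) := by
    rw [cyclotomic_eq_minpoly hζ (by omega)]
    refine minpoly.isIntegrallyClosed_dvd (hζ.isIntegral (by omega)) ?_
    rw [aeval_comp, map_neg, aeval_X]
    have h2 := (neg_root ho hm hζ).isRoot_cyclotomic (by omega)
    rw [← map_cyclotomic_int, IsRoot.def, eval_map] at h2
    rw [aeval_def]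
    exact h2
  obtain ⟨q, hq⟩ := h1
  have h3 : Polynomial.aeval Z ((cyclotomic m ℤ).comp (-X)) = 0 := by
    rw [hq, map_mul, h, zero_mul]
  rwa [aeval_comp, map_neg, aeval_X] at h3

variable {T : AV} {m : ℕ}

/-- `-Z`. -/
def ngc (ho : Odd m) (hm : 1 < m) (D : Cyc T (2 * m)) : Cyc T m where
  Z := -D.Z
  lat v hv := by
    rw [LinearMap.neg_apply]
    exact neg_mem (D.lat v hv)
  cyc := cyc_neg D.Z ho hm D.cyc
  ψ := D.ψ
  int := D.int
  alt := D.alt
  cpx := D.cpx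
  pos := D.pos
  inv u v := by
    rw [LinearMap.neg_apply, LinearMap.neg_apply, map_neg, map_neg, LinearMap.neg_apply, neg_neg]
    exact D.inv u v

/-- The character of `-Z`. -/
theorem ex_chr (ho : Odd m) (hm : 1 < m) (s : (ZMod (2 * m))ˣ) :
    ∃ t : (ZMod m)ˣ, zet m t = -zet (2 * m) s := by
  have hm0 : m ≠ 0 := by omega
  have : NeZero m := ⟨hm0⟩
  have hp : IsPrimitiveRoot (zet (2 * m) s) (2 * m) :=
    (Complex.isPrimitiveRoot_exp (2 * m) (by omega)).pow_of_coprime _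
      (by
        have : NeZero (2 * m) := ⟨by omega⟩
        exact ZMod.val_coe_unit_coprime s)
  obtain ⟨i, hi, hic, hiμ⟩ :=
    (IsPrimitiveRoot.isPrimitiveRoot_iff (Complex.isPrimitiveRoot_exp m hm0)).1
      (neg_root ho hm hp)
  refine ⟨ZMod.unitOfCoprime i hic, ?_⟩
  rw [zet, ZMod.coe_unitOfCoprime, ZMod.val_natCast_of_lt hi]
  exact hiμ

theorem ex_chr' (ho : Odd m) (hm : 1 < m) (t : (ZMod m)ˣ) :
    ∃ s : (ZMod (2 * m))ˣ, zet m t = -zet (2 * m) s := by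
  have hm0 : 2 * m ≠ 0 := by omega
  have : NeZero (2 * m) := ⟨hm0⟩
  have hp : IsPrimitiveRoot (zet m t) m :=
    (Complex.isPrimitiveRoot_exp m (by omega)).pow_of_coprime _
      (by
        have : NeZero m := ⟨by omega⟩
        exact ZMod.val_coe_unit_coprime t)
  obtain ⟨i, hi, hic, hiμ⟩ :=
    (IsPrimitiveRoot.isPrimitiveRoot_iff (Complex.isPrimitiveRoot_exp (2 * m) hm0)).1
      (neg_root' ho hp)
  refine ⟨ZMod.unitOfCoprime i hic, ?_⟩
  rw [zet, zet, ZMod.coe_unitOfCoprime, ZMod.val_natCast_of_lt hi]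
  change zet m t = _
  rw [hiμ, neg_neg]

variable (ho : Odd m) (hm : 1 < m) (D : Cyc T (2 * m))

theorem ngc_Ws {s : (ZMod (2 * m))ˣ} {t : (ZMod m)ˣ} (h : zet m t = -zet (2 * m) s) :
    Ws (ngc ho hm D) t = Ws D s := by
  ext a
  change (∀ v, a ((-D.Z) v) = zet m t * a v) ↔ ∀ v, a (D.Z v) = zet (2 * m) s * a v
  refine forall_congr' fun v => ?_
  rw [h, LinearMap.neg_apply, map_neg, neg_mul, neg_inj]

theorem ngc_p {s : (ZMod (2 * m))ˣ} {t : (ZMod m)ˣ} (h : zet m t = -zet (2 * m) s) :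
    (ngc ho hm D).p t = D.p s := by
  have : Ws10 (ngc ho hm D) t = Ws10 D s := by
    ext a
    change (a ∈ Ws (ngc ho hm D) t ∧ _) ↔ (a ∈ Ws D s ∧ _)
    rw [ngc_Ws ho hm D h]
  unfold Cyc.p
  rw [this]

theorem ngc_isU (X : Module.End ℝ T.V) : IsU (ngc ho hm D) X ↔ IsU D X := by
  refine and_congr_left fun _ => forall_congr' fun v => ?_
  change X ((-D.Z) v) = (-D.Z) (X v) ↔ _
  rw [LinearMap.neg_apply, LinearMap.neg_apply, map_neg, neg_inj]

theorem ngc_hLie {h : Set (Module.End ℝ T.V)} (hh : HLie (ngc ho hm D) h) : HLie D h :=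
  ⟨hh.rat, fun X hX => (ngc_isU ho hm D X).1 (hh.u X hX), hh.lie, hh.J⟩

theorem ngc_hit (hm3 : 3 ≤ m) (hD : IsHit D) : IsHit (ngc ho hm D) := by
  intro h hh F hF A hA
  have hm2 : 3 ≤ 2 * m := by omega
  choose σ hσ using ex_chr ho hm
  have hW : ∀ s, Ws D s = Ws (ngc ho hm D) (σ s) := fun s => (ngc_Ws ho hm D (hσ s)).symm
  have hneg : ∀ s, σ (-s) = -σ s := by
    intro s
    refine zet_inj (by omega) _ _ ?_
    rw [hσ, zet_conj hm2, zet_conj hm3, hσ, map_neg]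
  let e : ∀ s, Ws D s ≃ₗ[ℂ] Ws (ngc ho hm D) (σ s) := fun s => LinearEquiv.ofEq _ _ (hW s)
  obtain ⟨C, hC, hCA⟩ := hD h (ngc_hLie ho hm D hh) {s | σ s ∈ F}
    (fun s hs hs' => hF (σ s) hs (by
      have : σ (-s) ∈ F := hs'
      rwa [hneg] at this)) (fun s => (e s).symm.conj (A (σ s)))
    (fun s => by rw [LinearMap.trace_conj']; exact hA _)
  refine ⟨C, hC, ?_⟩
  intro t ht a
  obtain ⟨s, hs⟩ := ex_chr' ho hm t
  have hst : σ s = t := zet_inj (by omega) _ _ (by rw [hσ, hs])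
  subst hst
  have h1 := hCA s ht ((e s).symm a)
  rw [LinearEquiv.conj_apply, LinearMap.comp_apply, LinearMap.comp_apply] at h1
  simp only [LinearEquiv.coe_coe, LinearEquiv.symm_symm, LinearEquiv.apply_symm_apply] at h1
  exact h1

/-- A good factor for `2 m` is a good factor for `m`. -/
theorem ngc_gfw {r : ℕ} (hm3 : 3 ≤ m) (hD : GFw D r) : GFw (ngc ho hm D) r := by
  refine ⟨hm3, hD.hr, ?_, ngc_hit ho hm D hm3 hD.hit⟩
  rw [hD.dim, Nat.totient_mul ((Nat.coprime_two_left).2 ho), Nat.totient_two, one_mul]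

/-- The signatures are the same. -/
theorem ngc_sig (t : (ZMod m)ˣ) : ∃ s : (ZMod (2 * m))ˣ, (ngc ho hm D).p t = D.p s := by
  obtain ⟨s, hs⟩ := ex_chr' ho hm t
  exact ⟨s, ngc_p ho hm D hs⟩

end SEG
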