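import Pool.Agent.Lib.SE.G.Neg
import Pool.Agent.Lib.SE.W.All

/-!
# PROJECT SE-G: determinant classes for `-Z` (helper42)
-/

set_option autoImplicit false

noncomputable section

namespace SEG

open HC SE

theorem hasDA_neg {Q : (T : AV) → (m : ℕ) → Hlg T m → Prop} {m : ℕ} (ho : Odd m) {J : AV}
    {Z : Module.End ℂ J.V} {R : J.V →ₗ[ℝ] J.V →ₗ[ℝ] ℝ} (h : HasDA Q (2 * m) J Z R) :
    HasDA Q m J (-Z) R := by
  rintro X ⟨ζ, hζ⟩
  obtain ⟨t, hT, ζ', h1, h2, h3⟩ := h X ⟨-ζ, neg_root' ho hζ⟩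
  subst hT
  refine ⟨t, rfl, -ζ', fun v => ?_, h2, h3⟩
  rw [map_neg, LinearMap.neg_apply]
  exact congrArg Neg.neg (h1 v)

end SEG
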