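import Pool.Agent.Lib.SE.G.SpecK
import Pool.Agent.Lib.SE.E.Cp

/-!
# PROJECT SE-G, module P2k: a character with `2 ≤ p s`
-/

set_option autoImplicit false

open Module

noncomputable section

namespace SEG

open HC HC.E HC.SE SEB SEQ SER SE SEE

theorem tP2k : S_P2k := by
  intro T m r D hG hK
  rcases hK with ⟨h1, h2⟩ | ⟨-, hr, -⟩
  · exact tP2e T m r D h1 h2
  · have h1 := (tDim tPj tTw (tBas tPj) T m r D hG.hm hG.dim 1).2
    rcases Nat.lt_or_ge (D.p 1) 2 with h2 | h2
    · exact ⟨-1, by omega⟩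
    · exact ⟨1, h2⟩

end SEG
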