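import Pool.Agent.Lib.SE.G.Spec
import Pool.Agent.Lib.SE.Big.Cl
import Pool.Agent.Lib.SE.Big.Bas
import Pool.Agent.Lib.SE.Big.Pj
import Pool.Agent.Lib.SE.Big.Tw
import Pool.Agent.Lib.SE.Big.Dim

/-!
# PROJECT SE-Q, part G, module R2t: in rank 2 the sign does not matter (helper92)
-/

set_option autoImplicit false

open Module

noncomputable section

namespace SEG

open HC HC.E HC.SE SEB SEQ

namespace R2t_aux

/-- `v ↦ (v 1, -v 0)` -/
def rt : (Fin 2 → ℂ) ≃ₗ[ℂ] (Fin 2 → ℂ) where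
  toFun v := ![v 1, -v 0]
  invFun v := ![-v 1, v 0]
  map_add' v w := by
    ext i
    fin_cases i
    · rfl
    · change -(v 0 + w 0) = -v 0 + -w 0
      ring
  map_smul' c v := by
    ext i
    fin_cases i
    · rfl
    · change -(c * v 0) = c * -v 0
      ring
  left_inv v := by
    ext i
    fin_cases i
    · change - -v 0 = v 0
      ring
    · rfl
  right_inv v := by
    ext i
    fin_cases i
    · rfl
    · change - -v 1 = v 1
      ring

variable {W W' : Type} [AddCommGroup W] [Module ℂ W] [AddCommGroup W'] [Module ℂ W']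

theorem kap (b : Basis (Fin 2) ℂ W') (B : W ≃ₗ[ℂ] Module.Dual ℂ W') :
    ∃ κ : W ≃ₗ[ℂ] W', ∀ (x x' : W) (A : Module.End ℂ W'), LinearMap.trace ℂ W' A = 0 →
      (∀ c, B x' c = -(B x (A c))) → κ x' = A (κ x) := by
  refine ⟨B ≪≫ₗ ((b.constr ℂ).symm ≪≫ₗ rt ≪≫ₗ b.equivFun.symm), ?_⟩
  intro x x' A hA hB
  have hk : ∀ y : W, (B ≪≫ₗ ((b.constr ℂ).symm ≪≫ₗ rt ≪≫ₗ b.equivFun.symm)) y =
      B y (b 1) • b 0 - B y (b 0) • b 1 := by
    intro y
    change b.equivFun.symm (rt ((b.constr ℂ).symm (B y))) = _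
    rw [Basis.equivFun_symm_apply, Fin.sum_univ_two]
    change B y (b 1) • b 0 + (-(B y (b 0))) • b 1 = _
    rw [neg_smul, sub_eq_add_neg]
  have hexp : ∀ j, A (b j) = b.repr (A (b j)) 0 • b 0 + b.repr (A (b j)) 1 • b 1 := by
    intro j
    have h1 := b.sum_repr (A (b j))
    rw [Fin.sum_univ_two] at h1
    exact h1.symm
  have htr : b.repr (A (b 0)) 0 + b.repr (A (b 1)) 1 = 0 := by
    rw [LinearMap.trace_eq_matrix_trace ℂ b A, Matrix.trace_fin_two, LinearMap.toMatrix_apply,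
      LinearMap.toMatrix_apply] at hA
    exact hA
  have key : ∀ m00 m10 m01 m11 : ℂ, A (b 0) = m00 • b 0 + m10 • b 1 →
      A (b 1) = m01 • b 0 + m11 • b 1 → m00 + m11 = 0 →
      -(B x (A (b 1))) • b 0 - (-(B x (A (b 0)))) • b 1 =
        A (B x (b 1) • b 0 - B x (b 0) • b 1) := by
    intro m00 m10 m01 m11 e0 e1 h
    have h11 : m11 = -m00 := by linear_combination h
    subst h11
    rw [map_sub, map_smul, map_smul, e0, e1, map_add, map_smul, map_smul, map_add, map_smul,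
      map_smul]
    simp only [smul_eq_mul]
    module
  rw [hk, hk, hB, hB]
  exact key _ _ _ _ (hexp 0) (hexp 1) htr

end R2t_aux

open R2t_aux in
theorem tR2t : S_R2t := by
  intro hPrj hDua T T' m m' D D' hg h hh s t θ hθ
  obtain ⟨-, hL, -, -, hgg⟩ := hPrj T T' m m' D D' h hh
  have hBas : S_Bas := tBas tPj
  have hdim := (tDim tPj tTw hBas T' m' 2 D' hg.hm hg.dim (-t)).1
  have : FiniteDimensional ℂ (Ws D' (-t)) := Module.finite_of_finrank_pos (by rw [hdim]; norm_num)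
  obtain ⟨B, hB⟩ := hDua T' m' D' hg.hm t
  obtain ⟨κ, hκ⟩ := kap (Module.finBasisOfFinrankEq ℂ (Ws D' (-t)) hdim) B
  have hsub : gg (Prod.snd '' h) ≤ Submodule.span ℂ (pre '' {Y | IsU D' Y}) := by
    refine Submodule.span_mono (Set.image_mono ?_)
    rintro _ ⟨X, hX, X', hX', rfl⟩
    exact hL.u _ (hL.lie.br X hX X' hX')
  refine ⟨θ ≪≫ₗ κ, ?_⟩
  intro C hC a b hab
  have h1 := hθ C hC a b hab
  have hC2 := (hgg C hC).2
  obtain ⟨A, hA, hA'⟩ := (tCl hBas T' m' D' hg.hm _ hL).2.2 C.2 hC2 (-t)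
  have h2 := hκ (θ a) (θ b) A hA fun c => hB C.2 (hsub hC2) (θ a) (θ b) c (A c) h1 (hA' c).symm
  change (κ (θ b) : Frm T') = C.2 (κ (θ a))
  rw [h2, hA' (κ (θ a))]

end SEG
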