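import Pool.Agent.Lib.SE.G.Spec
import Pool.Agent.Lib.SE.Q.Cl2
import Pool.Agent.Lib.SE.Q.Lu
import Pool.Agent.Lib.SE.Big.Cl
import Pool.Agent.Lib.SE.Big.Dim
import Pool.Agent.Lib.SE.Big.Bas
import Pool.Agent.Lib.SE.Big.Pj
import Pool.Agent.Lib.SE.Big.Tw

/-!
# PROJECT SE-Q, module Th1: `θ` intertwines all of `h` if the traces agree
-/

set_option autoImplicit false

open Module

noncomputable section

namespace SEG

open HC HC.E HC.SE SEB SEQ

namespace Th1g_aux

/-- A traceless operator which commutes with all traceless operators is zero. -/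
theorem comm_zero (W : Type) [AddCommGroup W] [Module ℂ W] (hd : 2 ≤ finrank ℂ W)
    (M : Module.End ℂ W) (htr : LinearMap.trace ℂ W M = 0)
    (hc : ∀ N : Module.End ℂ W, LinearMap.trace ℂ W N = 0 → M * N = N * M) : M = 0 := by
  have hf : Module.Finite ℂ W := Module.finite_of_finrank_pos (by omega)
  have hn : (finrank ℂ W : ℂ) ≠ 0 := by
    have : finrank ℂ W ≠ 0 := by omega
    exact_mod_cast this
  have hall : ∀ N : Module.End ℂ W, M * N = N * M := by
    intro N
    set c : ℂ := LinearMap.trace ℂ W N / (finrank ℂ W : ℂ) with hcdef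
    have h1 := hc (N - c • 1) (by
      rw [map_sub, map_smul, LinearMap.trace_one, hcdef, smul_eq_mul, div_mul_cancel₀ _ hn, sub_self])
    rw [mul_sub, sub_mul, mul_smul_comm, smul_mul_assoc, mul_one, one_mul] at h1
    exact sub_left_injective h1
  let b := Module.finBasis ℂ W
  let i0 : Fin (finrank ℂ W) := ⟨0, by omega⟩
  set c : ℂ := b.coord i0 (M (b i0)) with hcd
  have hM : M = c • (1 : Module.End ℂ W) := by
    ext w
    have h1 := LinearMap.congr_fun (hall ((b.coord i0).smulRight w)) (b i0)
    rw [Module.End.mul_apply, Module.End.mul_apply, LinearMap.smulRight_apply,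
      LinearMap.smulRight_apply, Basis.coord_apply, Basis.repr_self, Finsupp.single_apply,
      if_pos rfl, one_smul] at h1
    exact h1
  have h2 : c = 0 := by
    rw [hM, map_smul, LinearMap.trace_one, smul_eq_mul] at htr
    exact (mul_eq_zero.1 htr).resolve_right hn
  rw [hM, h2, zero_smul]

end Th1g_aux

open Th1g_aux in
theorem tTh1g : S_Th1g := by
  intro hPrj T T' m m' r r' D D' g g' h hh s t θ hθ htr X hX a b hab
  obtain ⟨p1, p2, p3, p4, p5⟩ := hPrj T T' m m' D D' h hh
  have bas := tBas tPj
  -- the operators induced by `X`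
  have hA0 : ∀ x ∈ Ws D s, pre X.1 x ∈ Ws D s :=
    (bas T m D g.hm).2.2.1 X.1 (hh.u X hX).1.1 s
  have hB0 : ∀ x ∈ Ws D' t, pre X.2 x ∈ Ws D' t :=
    (bas T' m' D' g'.hm).2.2.1 X.2 (hh.u X hX).2.1 t
  let A : Module.End ℂ (Ws D s) := (pre X.1).restrict hA0
  let B : Module.End ℂ (Ws D' t) := (pre X.2).restrict hB0
  have hA : ∀ x : Ws D s, pre X.1 (x : Frm T) = (A x : Frm T) := fun x => rfl
  have hB : ∀ x : Ws D' t, pre X.2 (x : Frm T') = (B x : Frm T') := fun x => rfl
  have hAB := htr X hX A B hA hB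
  have hdim : finrank ℂ (Ws D' t) = r' :=
    (tDim tPj tTw bas T' m' r' D' g'.hm g'.dim t).1
  -- the difference
  set M : Module.End ℂ (Ws D' t) := θ.conj A - B with hM
  have hM0 : M = 0 := by
    refine comm_zero _ (by rw [hdim]; exact g'.hr) M ?_ ?_
    · have e := LinearMap.map_sub (LinearMap.trace ℂ (Ws D' t)) (θ.conj A) B
      rw [LinearMap.trace_conj', hAB, sub_self] at e
      exact e
    · intro N hN
      obtain ⟨C', hC', hCN⟩ := g'.hit _ p2 {t} (by
        intro u hu hu'
        rw [Set.mem_singleton_iff] at hu hu'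
        subst hu
        exact Lu_aux.neg_ne g'.hm _ hu')
        (fun u => if hu : u = t then hu ▸ N else 0) (by
        intro u
        by_cases hu : u = t
        · subst hu
          simpa using hN
        · simp [hu])
      have hCN' : ∀ x : Ws D' t, C' (x : Frm T') = (N x : Frm T') := by
        intro x
        have h4 := hCN t (Set.mem_singleton t) x
        simpa using h4
      obtain ⟨C, hC, rfl⟩ := p4 C' hC'
      obtain ⟨A', -, hA'⟩ := (tCl bas T m D g.hm _ p1).2.2 C.1 (p5 C hC).1 s
      have hθA' : ∀ x, θ (A' x) = N (θ x) := by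
        intro x
        apply Subtype.ext
        rw [hθ C hC x (A' x) (hA' x).symm, hCN']
      have hK : pre2 X * C - C * pre2 X ∈ gg2 h := by
        refine Cl2_aux.br_gg _ ?_ hC
        intro Y hY
        rw [Cl2_aux.q_mul, Cl2_aux.q_mul, Cl2_aux.q_sub]
        exact Submodule.subset_span ⟨_, ⟨Y, Cl2_aux.com_sub hh.br hY, X, hX, rfl⟩, rfl⟩
      have hK2 : ∀ x, θ (A (A' x) - A' (A x)) = B (N (θ x)) - N (B (θ x)) := by
        intro x
        apply Subtype.ext
        have h1 := hθ _ hK x (A (A' x) - A' (A x)) (by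
          change (A (A' x) : Frm T) - (A' (A x) : Frm T) =
            pre X.1 (C.1 (x : Frm T)) - C.1 (pre X.1 (x : Frm T))
          rw [hA', hA, hA, hA'])
        rw [h1]
        change pre X.2 (C.2 (θ x : Frm T')) - C.2 (pre X.2 (θ x : Frm T')) =
          (B (N (θ x)) : Frm T') - (N (B (θ x)) : Frm T')
        rw [hCN', hB, hB, hCN']
      refine LinearMap.ext fun y => ?_
      obtain ⟨x, rfl⟩ := θ.surjective y
      have e1 : θ.conj A (N (θ x)) = θ (A (A' x)) := by
        rw [LinearEquiv.conj_apply_apply, ← hθA', LinearEquiv.symm_apply_apply]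
      have e2 : N (θ.conj A (θ x)) = θ (A' (A x)) := by
        rw [LinearEquiv.conj_apply_apply, LinearEquiv.symm_apply_apply, hθA']
      rw [Module.End.mul_apply, Module.End.mul_apply, hM, LinearMap.sub_apply,
        LinearMap.sub_apply, map_sub, e1, e2]
      have h3 := hK2 x
      rw [map_sub] at h3
      have h4 : θ (A (A' x)) = θ (A' (A x)) + (B (N (θ x)) - N (B (θ x))) := by
        rw [← h3]
        abel
      rw [h4]
      abel
  have h5 : b = A a := by
    apply Subtype.ext
    rw [hab, hA]
  have h6 := LinearMap.congr_fun hM0 (θ a)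
  rw [hM, LinearMap.sub_apply, LinearEquiv.conj_apply_apply, LinearEquiv.symm_apply_apply,
    LinearMap.zero_apply, sub_eq_zero] at h6
  rw [h5, h6, hB]

end SEG
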