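import Pool.Agent.Lib.SE.G.Th0g
import Pool.Agent.Lib.SE.G.R2t
import Pool.Agent.Lib.SE.G.Jc
import Pool.Agent.Lib.SE.G.Gtr
import Pool.Agent.Lib.SE.G.Nsd
import Pool.Agent.Lib.SE.G.Th1g
import Pool.Agent.Lib.SE.G.Cutg
import Pool.Agent.Lib.SE.G.Homg
import Pool.Agent.Lib.SE.G.Isog
import Pool.Agent.Lib.SE.G.Lrg
import Pool.Agent.Lib.SE.G.Lug
import Pool.Agent.Lib.SE.G.Lig
import Pool.Agent.Lib.SE.Q.PPg

/-!
# PROJECT SE-G: pairs (helper42)
-/

set_option autoImplicit false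

open Module

noncomputable section

namespace SEG

open HC HC.E HC.SE SEB SEQ SEQ.B_aux SEQ.Bg_aux SEQ.PPg_aux

/-- The same `m`, equal signatures, `θ` given. -/
theorem same_isgw (hPrj : S_Prj) (hTh1 : S_Th1g) (hCut : S_Cutg) (hTrE : S_TrE) (hHom : S_Homg)
    (hIso : S_Isog) {T T' : AV} {m r : ℕ} {D : Cyc T m} {D' : Cyc T' m} (hD : GFw D r)
    (hD' : GFw D' r) (g : (ZMod m)ˣ) (hg : ∀ u, D.p u = D'.p (g * u)) {h : Set (Pr2 T T')}
    (hh : HLie2 D D' h) (s : (ZMod m)ˣ) (θ : Ws D s ≃ₗ[ℂ] Ws D' (g * s)) (hθ : Itw h θ) :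
    Isg T T' := by
  have hc := hCut T T' m r D D' hD hD' g hg h hh
  have hi : Itw {X | X ∈ h ∧ TrEq D D' g X} θ := itw_mono (fun X hX => hX.1) hθ
  have hθ' := hTh1 hPrj T T' m m r r D D' hD hD' _ hc s (g * s) θ hi
    (fun X hX A B hA hB => hTrE T T' m D D' hD.hm g X (hc.u X hX).1.1 (hc.u X hX).2.1 hX.2 s
      A B hA hB)
  obtain ⟨Θ, h1, h2, h3, h4⟩ := hHom T T' m r D D' hD hD' _ hc g s θ hθ'
  exact hIso T T' m r D D' hD hD' _ hc g s Θ h1 h2 h3 h4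

/-- `{m, m'} = {3, 4}`, rank at least `3`: no links. -/
theorem no_link34 {T T' : AV} {m m' r : ℕ} {D : Cyc T m} {D' : Cyc T' m'} (hD : GFw D r)
    (hD' : GFw D' r) (hr : 3 ≤ r) (hc : m = 3 ∧ m' = 4 ∨ m = 4 ∧ m' = 3) {h : Set (Pr2 T T')}
    (hh : HLie2 D D' h) {s : (ZMod m)ˣ} {t : (ZMod m')ˣ}
    (hl : ∀ (M : ℕ) (hM : m ∣ M) (hM' : m' ∣ M), M ≠ 0 → ∀ ρ : (ZMod M)ˣ,
      Lnk D D' h (rho hM ρ s) (rho hM' ρ t)) : False := by
  have hm3 := hD.hm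
  have hm0 : m * m' ≠ 0 := by
    have := hD'.hm
    positivity
  have hl0 := hl (m * m') (dvd_mul_right m m') (dvd_mul_left m' m) hm0 1
  unfold rho at hl0
  rw [map_one, map_one, one_mul, one_mul] at hl0
  -- a unit which is `1` modulo `m` and `-1` modulo `m'`
  obtain ⟨M, hM, hM', hM0, ρ, hρ, hρ'⟩ : ∃ (M : ℕ) (hM : m ∣ M) (hM' : m' ∣ M), M ≠ 0 ∧
      ∃ ρ : (ZMod M)ˣ, ZMod.unitsMap hM ρ = 1 ∧ ZMod.unitsMap hM' ρ = -1 := by
    rcases hc with ⟨rfl, rfl⟩ | ⟨rfl, rfl⟩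
    · refine ⟨12, by decide, by decide, by decide, ZMod.unitOfCoprime 7 (by decide), ?_, ?_⟩
      · ext
        decide
      · ext
        decide
    · refine ⟨12, by decide, by decide, by decide, ZMod.unitOfCoprime 5 (by decide), ?_, ?_⟩
      · ext
        decide
      · ext
        decide
  obtain ⟨t', θ, hθ⟩ : ∃ (t' : (ZMod m')ˣ) (θ : Ws D s ≃ₗ[ℂ] Ws D' t'), Itw h θ := by
    rcases tTh0g tPrj tCl2 tInt tIntG tDua T T' m m' r D D' hD hD' h hh s t hl0 with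
      ⟨θ, hθ⟩ | ⟨θ, hθ⟩
    · exact ⟨t, θ, hθ⟩
    · exact ⟨-t, θ, hθ⟩
  obtain ⟨θ', hθ'⟩ := itw_cast (D := D) (D' := D') (s' := s) (t' := -t')
    (by unfold rho; rw [hρ, one_mul]) (by unfold rho; rw [hρ', neg_one_mul])
    (tGtr tPrj tRSH tGaH T T' m m' r D D' hD hD' h hh s t' θ hθ M hM hM' hM0 ρ)
  obtain ⟨h1, h2, h3, h4, h5⟩ := tPrj T T' m m' D D' h hh
  refine tNsd tDua T' m' r D' hD' hr _ h2 t' (θ.symm.trans θ') ?_
  intro C hC a b hab
  obtain ⟨C', hC', rfl⟩ := h4 C hC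
  have e1 := hθ C' hC' (θ.symm a)
  have hb : θ.symm b = θ.symm b := rfl
  -- the preimage of `b`
  have hCs : ∃ c : Ws D s, (c : Frm T) = C'.1 (θ.symm a : Frm T) := by
    obtain ⟨A', -, hA'⟩ := (tCl (tBas tPj) T m D hD.hm _ h1).2.2 C'.1 (h5 C' hC').1 s
    exact ⟨A' (θ.symm a), (hA' _).symm⟩
  obtain ⟨c, hc'⟩ := hCs
  have e2 : θ c = b := by
    apply Subtype.ext
    rw [e1 c hc', LinearEquiv.apply_symm_apply, hab]
  have e3 := hθ' C' hC' (θ.symm a) c hc'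
  have e4 : c = θ.symm b := by rw [← e2, LinearEquiv.symm_apply_apply]
  rw [LinearEquiv.trans_apply, LinearEquiv.trans_apply, ← e4]
  exact e3


/-- The same `m`: one link gives an isogeny. -/
theorem linked_isg {T T' : AV} {m r : ℕ} {D : Cyc T m} {D' : Cyc T' m} (hD : GFw D r)
    (hD' : GFw D' r)
    (hc : (Aper D ∧ (∃ s, 0 < D.p s ∧ D.p s < r ∧ (2 * D.p s ≠ r ∨ r = 2)) ∧
      ∃ g : (ZMod m)ˣ, ∀ u : (ZMod m)ˣ, D.p u = D'.p (g * u)) ∨
      ∀ g : (ZMod m)ˣ, (∀ u, 0 < D.p u → D.p u < r → D'.p (g * u) = D.p u) →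
        ∀ u, D.p u = D'.p (g * u))
    {h : Set (Pr2 T T')} (hh : HLie2 D D' h) {s t : (ZMod m)ˣ} (hl : Lnk D D' h s t) :
    Isg T T' := by
  have hm := hD.hm
  have hm0 : m ≠ 0 := by omega
  have hNZ : NeZero m := ⟨hm0⟩
  obtain ⟨t', hθ⟩ : ∃ t' : (ZMod m)ˣ, ∃ θ : Ws D s ≃ₗ[ℂ] Ws D' t', Itw h θ := by
    rcases tTh0g tPrj tCl2 tInt tIntG tDua T T' m m r D D' hD hD' h hh s t hl with hθ | hθ
    · exact ⟨t, hθ⟩
    · exact ⟨-t, hθ⟩
  obtain ⟨g, rfl⟩ : ∃ g : (ZMod m)ˣ, t' = g * s := ⟨t' * s⁻¹, (inv_mul_cancel_right _ _).symm⟩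
  -- at every character
  have hall : ∀ u, ∃ θ : Ws D u ≃ₗ[ℂ] Ws D' (g * u), Itw h θ := by
    intro u
    obtain ⟨θ, hθ⟩ := hθ
    refine itw_cast (D := D) (D' := D') (by rw [rho_self, inv_mul_cancel_right]) ?_
      (tGtr tPrj tRSH tGaH T T' m m r D D' hD hD' h hh s _ θ hθ m dvd_rfl dvd_rfl hm0 (u * s⁻¹))
    rw [rho_self, mul_comm g s, ← mul_assoc, inv_mul_cancel_right, mul_comm]
  have hsig : ∀ u, 0 < D.p u → D.p u < r → D'.p (g * u) = D.p u := by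
    intro u h0 h1
    obtain ⟨θ, hθ⟩ := hall u
    exact tJc tPrj tCl2 tTrJ T T' m m r D D' hD hD' h hh u _ θ hθ h0 h1
  have fin : ∀ g' : (ZMod m)ˣ, (∀ u, D.p u = D'.p (g' * u)) →
      (∃ θ : Ws D s ≃ₗ[ℂ] Ws D' (g' * s), Itw h θ) → Isg T T' := by
    rintro g' hg' ⟨θ, hθ⟩
    exact same_isgw tPrj tTh1g (tCutg tTrS tTrJ) (tTrE tTrS) (tHomg tRSH) (tIsog tPrj tGaH) hD hD'
      g' hg' hh s θ hθ
  rcases hc with ⟨hAp, hEx, g₀, hg₀⟩ | hc
  · have hr : ∀ u, D.p u + D.p (-u) = r := fun u => (dim_all T m r D hm hD.dim u).2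
    -- `D.p (g₀⁻¹ g u) = D'.p (g u)`
    have e1 : ∀ u, D.p (u * (g₀⁻¹ * g)) = D'.p (g * u) := by
      intro u
      rw [hg₀]
      congr 1
      rw [mul_comm u, ← mul_assoc, mul_inv_cancel_left]
    have hind : ∀ u, (0 < D.p u ∧ D.p u < r) → D.p (u * (g₀⁻¹ * g)) = D.p u := by
      intro u hu
      rw [e1, hsig u hu.1 hu.2]
    have hap : g₀⁻¹ * g = 1 ∨ g₀⁻¹ * g = -1 := by
      refine hAp _ fun u => ?_
      by_cases hu : 0 < D.p u ∧ D.p u < r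
      · have hu' : 0 < D.p (-u) ∧ D.p (-u) < r := by
          have := hr u
          omega
        rw [hind u hu, ← neg_mul, hind (-u) hu']
      · have hu' : ¬ (0 < D.p (u * (g₀⁻¹ * g)) ∧ D.p (u * (g₀⁻¹ * g)) < r) := by
          intro h1
          refine hu (refl_fin (fun u => 0 < D.p u ∧ D.p u < r) (fun u => u * (g₀⁻¹ * g))
            (mul_left_injective _) (fun a ha => ?_) u h1)
          show 0 < D.p (a * (g₀⁻¹ * g)) ∧ D.p (a * (g₀⁻¹ * g)) < r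
          rw [hind a ha]
          exact ha
        have z : ∀ v, ¬ (0 < D.p v ∧ D.p v < r) → D.p v * D.p (-v) = 0 := by
          intro v hv
          have := hr v
          rcases Nat.eq_zero_or_pos (D.p v) with h0 | h0
          · rw [h0, zero_mul]
          · have : D.p (-v) = 0 := by
              have : r ≤ D.p v := by
                by_contra hlt
                exact hv ⟨h0, by omega⟩
              omega
            rw [this, mul_zero]
        rw [z _ hu, z _ hu']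
    rcases hap with h1 | h1
    · have h2 : g = g₀ := by rw [← mul_one g₀, ← h1, mul_inv_cancel_left]
      subst h2
      exact fin g hg₀ (hall s)
    · have h2 : g = -g₀ := by
        rw [← mul_inv_cancel_left g₀ g, h1, mul_neg_one]
      subst h2
      by_cases hr2 : r = 2
      · subst hr2
        obtain ⟨θ, hθ⟩ := hall s
        refine fin g₀ hg₀ (itw_cast rfl ?_ (tR2t tPrj tDua T T' m m D D' hD' h hh s _ θ hθ))
        rw [neg_mul, neg_neg]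
      · exfalso
        obtain ⟨u, hu0, hu1, hu2⟩ := hEx
        have hu2' : 2 * D.p u ≠ r := hu2.resolve_right hr2
        have h3 := hsig u hu0 hu1
        have h4 : D'.p (-g₀ * u) = D.p (-u) := by
          rw [hg₀, neg_mul, mul_neg]
        have h5 := hr u
        omega
  · exact fin g (hc g hsig) (hall s)

/-- **PPw**: pairs, every signature. -/
theorem tPPw : PPw := by
  intro T T' m m' r r' D D' hG hG' hC hI h hh s t
  by_contra hno
  have hm := hG.hm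
  have hm' := hG'.hm
  obtain ⟨p1, p2, -, -, p5⟩ := tPrj T T' m m' D D' h hh
  have hit1 : ∀ s, Hits D (Prod.fst '' h) {s} := fun s => hG.hit _ p1 {s} (Lp_half hm s)
  have hit2 : ∀ t, Hits D' (Prod.snd '' h) {t} := fun t => hG'.hit _ p2 {t} (Lp_half hm' t)
  have hL : Lnk D D' h s t :=
    (tGt2 tPrj tCl2 T T' m m' D D' hm hm' h hh s t (hit1 s) (hit2 t)).resolve_left hno
  have b1 := tLrg tPrj tCl2 (tGt2 tPrj tCl2) tLI2 T T' m m' r r' D D' hG hG' h hh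
  have b2 := tLug tPrj T T' m m' r r' D D' hG hG' h hh
  have b3 := tLig T T' m m' r r' D D' hG hG' h b1 b2 s t hL
  have hrr : r = r' := (b1 s t hL).1
  subst hrr
  have b4 : ∀ u u', Lnk D D' h u u' → D.p u * D.p (-u) = D'.p u' * D'.p (-u') :=
    fun u u' hl => Lp_gen tPrj tCl2 D D' hm hm' h hh u u' (hit1 u) (hit2 u') hl
  rcases hC with c | c | c | c | c | c
  · exact b3 (Or.inl c)
  · exact b3 (Or.inr (Or.inl c))
  · exact b3 (Or.inr (Or.inr c))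
  · obtain ⟨hmm, c⟩ := c
    subst hmm
    exact hI (linked_isg hG hG' c hh hL)
  · exact no_link34 hG hG' c.1 c.2 hh (s := s) (t := t)
      (fun M hM hM' hM0 ρ => (b1 s t hL).2 M hM hM' hM0 ρ)
  · obtain ⟨M, hM, hM', hM0, ρ, hne⟩ := c s t
    exact hne (b4 _ _ ((b1 s t hL).2 M hM hM' hM0 ρ))

end SEG
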