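import Pool.Agent.Lib.SE.G.Spec
import Pool.Agent.Lib.SE.E.Spec
import Pool.Agent.Lib.SE.Big.Asm9
import Pool.Agent.Lib.SE.W.All
import Pool.Agent.Lib.SE.S.Fin
import Pool.Agent.Lib.SE.S.SpecR

/-!
# PROJECT SE-G: all exponents; the class of the factors in the last theorem (helper59)

Every module: file `SE/G/Xyz.lean`, `theorem tXyz : S_Xyz`, namespace `SEG`, import
`Pool.Agent.Lib.SE.G.SpecK` (and proved modules which you want to use).
-/

set_option autoImplicit false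

open Module

noncomputable section

namespace SEG

open HC HC.E HC.SE SEB SEQ SER SE SEE

/-- The kinds of good factors: as in SE-E, or all signatures are indefinite. -/
def Kdk {T : AV} {m : ℕ} (D : Cyc T m) (r : ℕ) : Prop :=
  (GFg D r ∧ Kde D r) ∨ (m % 4 ≠ 2 ∧ 3 ≤ r ∧ ∀ s, 0 < D.p s)

/-- **Cpk**: kinds are compatible. PROOF. `r = r'` (otherwise the first case of `Cpw`), `p s + p (-s) = r` (`tDim`).
(first, first): `tCpe`, `cpw_of_cpg`. `m ≠ m'`: both are not `2` modulo `4`: `Cpe_aux.diff` (as in `tCpe`;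
`3 ≤ r` from the second kind), and the cases of `Cpg` which occur there are cases of `Cpw`. `m = m'`,
(second, anything): all `p u` are `> 0` and `< r`, so the second alternative of the fourth case
(`Cpe_aux.all_ind`). (first, second): if all `D.p u > 0` the same; if `D.p u₀ = 0` the last case: `M = m`,
`ρ = u₀ s⁻¹`: the product is `0`, and it is `> 0` for `D'`. -/
def S_Cpk : Prop :=
  ∀ (T T' : AV) (m m' r r' : ℕ) (D : Cyc T m) (D' : Cyc T' m'), GFw D r → GFw D' r' →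
    Kdk D r → Kdk D' r' → Cpw D D' r r'

/-- **P2k**: a character with `2 ≤ p s`. PROOF. `tP2e`, or `p 1 + p (-1) = r ≥ 3`. -/
def S_P2k : Prop :=
  ∀ (T : AV) (m r : ℕ) (D : Cyc T m), GFw D r → Kdk D r → ∃ s, 2 ≤ D.p s

/-- The determinant classes are algebraic (in `Alg2`), for every invariant Riemann form. -/
def HDa {G : AV} {m : ℕ} (D : Cyc G m) : Prop :=
  ∀ R, IsPol G D.Z R → HasDA (fun T m c => HC.SE.Alg2 T m c) m G D.Z R

/-- **Cnv**: FROM `2 m` TO `m`, `m` odd. PROOF. `D₀.Z = -D.Z`, `D₀.ψ = D.ψ`: `Φ_(2m)(x) = Φ_m(-x)`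
(`Polynomial.cyclotomic_two_mul..`, or `Z` satisfies `Z ^ m = -1`: `Φ_(2m)` divides `x ^ m + 1`, ..., any
proof of `Φ_m(-Z) = 0`). `zet m s = -zet (2 m) (e s)`, `e s = 2 s + m` modulo `2 m`, a bijection of the units with
`e (-s) = -e s`: `Ws D₀ s = Ws D (e s)`, `Ws10` the same, `D₀.p s = D.p (e s)`. `IsU D₀ X ↔ IsU D X`,
`HLie D₀ h ↔ HLie D h`, so `IsHit D₀` (a half system `F` of characters of `D₀` corresponds to
`e '' F`; the family `A` is transported by the equality of the eigenspaces, e.g. `LinearEquiv.ofEq`,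
`LinearEquiv.conj`). `φ(2 m) = φ(m)`. `HDa`: `IsPol G (-Z) R ↔ IsPol G Z R`; if `X` contains a primitive `m`-th root of
unity `ζ` it contains the primitive `2 m`-th root `-ζ`; the type `t` and `ζ'` for `Z`: `-ζ'` for `-Z`. -/
def S_Cnv : Prop :=
  ∀ (G : AV) (m r : ℕ) (D : Cyc G (2 * m)), 3 ≤ m → Odd m → GFw D r → (∀ s, 0 < D.p s) →
    HDa D → ∃ D₀ : Cyc G m, GFw D₀ r ∧ (∀ s, 0 < D₀.p s) ∧ HDa D₀

/-- A good factor. -/
def Gok (G : AV) : Prop :=
  ∃ (m r : ℕ) (D : Cyc G m), GFw D r ∧ Kdk D r ∧ HDa D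

/-- **Gke**: the class of SE-E. PROOF. `tGge`, `gfw_of_gfg`; `HDa`: `SEP.hasDA s_da SEP.s_DAB` (see SE/E/All.lean,
`Fct`). -/
def S_Gke : Prop := ∀ G : AV, Gde MMe G → IsCM G ∨ Gok G

/-- **Gkx**: ALL EXPONENTS, all signatures indefinite. PROOF. `exists_pol` (SE/Big/Cor.lean): `E` with
`IsPol G N.Z E`; `D = mkCyc N hE`; `HypW` (`u = 1`), `full_of_MMx`: `Full D`, `isHit_of_full` (SE/Big/Gf.lean, with the
`Mods` of SE/Big/Main*.lean): `GFw D r`; `D.p s = sg m r b s.val > 0` (`Pnew`). `HDa`: as in `S_Gke`. If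
`m % 4 ≠ 2` this is the second kind; otherwise `m = 2 m₀`, `m₀ ≥ 3` odd: `S_Cnv`. -/
def S_Gkx : Prop :=
  S_Cnv → ∀ (G : AV) (m r : ℕ) (s : Fin (r + 1) → ℂ) (b : Fin (r + 1) → ℕ), New G m s b →
    IsCov m s b → 3 ≤ r → (∀ u < m, u.Coprime m → 0 < sg m r b u) → s ∉ MMx m r b → Gok G

/-- **Mxm**: the sets are meagre. PROOF. `thFullX` (SE/Big, part 8) in `BigX`. -/
def S_Mxm : Prop := ∀ m r b, IsMeagre (MMx m r b)

/-- **Sur**: SMALL DIMENSION (SE/U). -/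
def S_Sur : Prop :=
  (∀ T : AV, finrank ℂ T.V = 1 → IsRM T) ∧ ∀ T : AV, finrank ℂ T.V = 2 →
    IsCM T ∨ IsRM T ∨ (∃ E₁ E₂ : AV, finrank ℂ E₁.V = 1 ∧ finrank ℂ E₂.V = 1 ∧ IsProd T E₁ E₂) ∨
    ∀ E, SES.IsRf T E → SES.SpB E

/-! ## The final theorem -/

/-- THE FACTORS. `G` is (i) of CM type, or (ii) of dimension at most `2`, or (iii) with real
multiplication of degree `dim G`, or (iv) of dimension at least `2` with Hodge group the symplectic
group, or (v) the Jacobian of `y ^ 2 = f(x)`, `f` of odd degree `≥ 5` with distinct roots, outside a meagre set,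
or (vi) one of the varieties `Gde` of SE-E, or (vii) the new part of the Jacobian of
`y ^ m = ∏_j (x - s_j) ^ b_j`, with at least four finite branch points, such that all signatures are indefinite
(for example if there are at least `m` finite branch points), `s` outside a meagre set. -/
def Fac (M : (m r : ℕ) → (Fin (r + 1) → ℕ) → Set (Fin (r + 1) → ℂ)) (G : AV) : Prop :=
  IsCM G ∨ finrank ℂ G.V ≤ 2 ∨ IsRM G ∨ SES.IsSy G ∨ SES.IsHy (fun r => M 2 r fun _ => 1) G ∨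
  Gde (fun m r => M m r fun _ => 1) G ∨
  ∃ (m r : ℕ) (s : Fin (r + 1) → ℂ) (b : Fin (r + 1) → ℕ) (_ : New G m s b), IsCov m s b ∧
    3 ≤ r ∧ (∀ u < m, u.Coprime m → 0 < sg m r b u) ∧ s ∉ M m r b

/-- **THE FINAL THEOREM.** -/
def FinK : Prop :=
  ∃ M : (m r : ℕ) → (Fin (r + 1) → ℕ) → Set (Fin (r + 1) → ℂ), (∀ m r b, IsMeagre (M m r b)) ∧
  ∀ (A B T : AV) (N' : ℕ) (G : Fin N' → AV), IsCM A → (∀ n, Fac M (G n)) → IsProdE B A G →
  ∀ (q N : ℕ) (J : Fin q → AV) (j : Fin N → Fin q) (m : Fin q → ℕ)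
    (Z : ∀ i, Module.End ℂ (J i).V) (E : ∀ i, (J i).V →ₗ[ℝ] (J i).V →ₗ[ℝ] ℝ)
    (ψ : T.V ≃ₗ[ℂ] B.V × (∀ n, (J (j n)).V)),
    (∀ i, Fct (J i) (m i) (Z i)) → (∀ i, IsPol (J i) (Z i) (E i)) →
    (∀ v ∈ T.L, ∃ k : ℕ, k ≠ 0 ∧ k • (ψ v).1 ∈ B.L ∧ ∀ n, k • (ψ v).2 n ∈ (J (j n)).L) →
    ∀ (d : ℕ) (c : Hlg T d), IsHodge T d c → SUK Z E ψ c → Alg2 T d c

end SEG
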