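import Pool.Agent.Lib.SE.G.Spec
import Pool.Agent.Lib.SE.Big.Cl
import Pool.Agent.Lib.SE.Big.Bas
import Pool.Agent.Lib.SE.Big.Pj
import Pool.Agent.Lib.SE.Big.Tw
import Pool.Agent.Lib.SE.Big.Dim

/-!
# PROJECT SE-Q, part G, module Th0g: from a link to the isomorphism of the eigenspaces
-/

set_option autoImplicit false

open Module

noncomputable section

namespace SEG

open HC HC.E HC.SE SEB SEQ

namespace Th0g_aux

variable {T T' : AV} {m m' : ℕ}

theorem ext_Ws (D : Cyc T m) (s : (ZMod m)ˣ) (X Y : Module.End ℂ (Ws D s))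
    (hXY : ∀ a : Ws D s, ((X a : Ws D s) : Frm T) = ((Y a : Ws D s) : Frm T)) : X = Y :=
  LinearMap.ext fun a => Subtype.ext (hXY a)

theorem exists_fam1 (D : Cyc T m) (s : (ZMod m)ˣ) (X : Module.End ℂ (Ws D s))
    (hX : LinearMap.trace ℂ (Ws D s) X = 0) :
    ∃ A : ∀ s, Module.End ℂ (Ws D s), (∀ s, LinearMap.trace ℂ (Ws D s) (A s) = 0) ∧
      A s = X := by
  refine ⟨Function.update 0 s X, ?_, Function.update_self _ _ _⟩
  intro s'
  by_cases h2 : s' = s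
  · subst h2
    rw [Function.update_self]
    exact hX
  · rw [Function.update_of_ne h2, Pi.zero_apply, map_zero]

/-- the pairs of operators which are induced -/
def PP0 (D : Cyc T m) (D' : Cyc T' m') (h : Set (Pr2 T T')) (s : (ZMod m)ˣ) (t : (ZMod m')ˣ) :
    Submodule ℂ (Module.End ℂ (Ws D s) × Module.End ℂ (Ws D' t)) where
  carrier := {x | ∃ C ∈ gg2 h, (∀ a : Ws D s, C.1 (a : Frm T) = (x.1 a : Frm T)) ∧
    ∀ b : Ws D' t, C.2 (b : Frm T') = (x.2 b : Frm T')}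
  add_mem' := by
    rintro x y ⟨C, hC, h1, h2⟩ ⟨C', hC', h1', h2'⟩
    refine ⟨C + C', add_mem hC hC', fun a => ?_, fun b => ?_⟩
    · rw [Prod.fst_add, LinearMap.add_apply, h1, h1']
      rfl
    · rw [Prod.snd_add, LinearMap.add_apply, h2, h2']
      rfl
  zero_mem' := ⟨0, zero_mem _, fun a => rfl, fun b => rfl⟩
  smul_mem' := by
    rintro c x ⟨C, hC, h1, h2⟩
    refine ⟨c • C, Submodule.smul_mem _ c hC, fun a => ?_, fun b => ?_⟩
    · rw [Prod.smul_fst, LinearMap.smul_apply, h1]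
      rfl
    · rw [Prod.smul_snd, LinearMap.smul_apply, h2]
      rfl

/-- units are not equal to their negatives -/
theorem neg_ne {m : ℕ} (hm : 3 ≤ m) (s : (ZMod m)ˣ) : -s ≠ s := by
  intro h
  have h1 : -(s : ZMod m) = (s : ZMod m) := by
    have := congrArg (fun u : (ZMod m)ˣ => (u : ZMod m)) h
    simpa using this
  have h2 : (2 : ZMod m) * (s : ZMod m) = 0 := by
    linear_combination -h1
  have h3 : (2 : ZMod m) = 0 := by
    have h4 := congrArg (fun x : ZMod m => x * ((s⁻¹ : (ZMod m)ˣ) : ZMod m)) h2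
    simp only [mul_assoc, Units.mul_inv, mul_one, zero_mul] at h4
    exact h4
  have h4 : ((2 : ℕ) : ZMod m) = 0 := by
    rw [Nat.cast_ofNat]
    exact h3
  rw [ZMod.natCast_eq_zero_iff] at h4
  have := Nat.le_of_dvd (by norm_num) h4
  omega

/-- the duality with the sign removed -/
theorem dua (hDua : S_Dua) (D : Cyc T m) (hm : 3 ≤ m) (u v : (ZMod m)ˣ) (h : v = -u) :
    ∃ B : Ws D u ≃ₗ[ℂ] Module.Dual ℂ (Ws D v),
    ∀ C ∈ Submodule.span ℂ (pre '' {Y | IsU D Y}), ∀ (a a' : Ws D u) (b b' : Ws D v),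
    (a' : Frm T) = C (a : Frm T) → (b' : Frm T) = C (b : Frm T) → B a' b = -B a b' := by
  subst h
  exact hDua T m D hm u

end Th0g_aux

open Th0g_aux in
theorem tTh0g : S_Th0g := by
  intro hPrj hCl2 hInt hIntG hDua T T' m m' r D D' hG hG' h hh s t hL
  obtain ⟨hh1, hh2, hl1, hl2, hpr⟩ := hPrj T T' m m' D D' h hh
  obtain ⟨hbr, -⟩ := hCl2 T T' m m' D D' h hh
  have hm := hG.hm
  have hm' := hG'.hm
  have hBas : S_Bas := tBas tPj
  have hDim : S_Dim := tDim tPj tTw hBas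
  obtain ⟨-, -, htr⟩ := tCl hBas T m D hm _ hh1
  obtain ⟨-, -, htr'⟩ := tCl hBas T' m' D' hm' _ hh2
  have hd : 2 ≤ finrank ℂ (Ws D s) := by
    rw [(hDim T m r D hm hG.dim s).1]
    exact hG.hr
  have hd' : 2 ≤ finrank ℂ (Ws D' t) := by
    rw [(hDim T' m' r D' hm' hG'.dim t).1]
    exact hG'.hr
  have hs : Hits D (Prod.fst '' h) {s} := hG.hit _ hh1 {s} (by
    rintro u rfl hu
    exact neg_ne hm u hu)
  have ht : Hits D' (Prod.snd '' h) {t} := hG'.hit _ hh2 {t} (by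
    rintro u rfl hu
    exact neg_ne hm' u hu)
  have hfd : FiniteDimensional ℂ (Ws D s) := inferInstance
  have hfd' : FiniteDimensional ℂ (Ws D' t) := inferInstance
  have hcl : ∀ x ∈ PP0 D D' h s t, ∀ y ∈ PP0 D D' h s t,
      (x.1 * y.1 - y.1 * x.1, x.2 * y.2 - y.2 * x.2) ∈ PP0 D D' h s t := by
    rintro x ⟨C, hC, h1, h2⟩ y ⟨C', hC', h1', h2'⟩
    refine ⟨C * C' - C' * C, hbr C hC C' hC', fun a => ?_, fun b => ?_⟩
    · show C.1 (C'.1 (a : Frm T)) - C'.1 (C.1 (a : Frm T)) = _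
      rw [h1', h1, h1, h1']
      rfl
    · show C.2 (C'.2 (b : Frm T')) - C'.2 (C.2 (b : Frm T')) = _
      rw [h2', h2, h2, h2']
      rfl
  have htr0 : ∀ x ∈ PP0 D D' h s t, LinearMap.trace ℂ (Ws D s) x.1 = 0 ∧
      LinearMap.trace ℂ (Ws D' t) x.2 = 0 := by
    rintro x ⟨C, hC, h1, h2⟩
    obtain ⟨hC1, hC2⟩ := hpr C hC
    obtain ⟨A', hA1, hA2⟩ := htr C.1 hC1 s
    obtain ⟨B', hB1, hB2⟩ := htr' C.2 hC2 t
    have e1 : x.1 = A' := ext_Ws D s _ _ fun a => by rw [← h1, hA2]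
    have e2 : x.2 = B' := ext_Ws D' t _ _ fun b => by rw [← h2, hB2]
    rw [e1, e2]
    exact ⟨hA1, hB1⟩
  have hs1 : ∀ X : Module.End ℂ (Ws D s), LinearMap.trace ℂ (Ws D s) X = 0 →
      ∃ Y, (X, Y) ∈ PP0 D D' h s t := by
    intro X hX
    obtain ⟨A, hA, hA1⟩ := exists_fam1 D s X hX
    obtain ⟨C0, hC0, hC1⟩ := hs A hA
    obtain ⟨C, hC, rfl⟩ := hl1 C0 hC0
    obtain ⟨B', -, hB2⟩ := htr' C.2 (hpr C hC).2 t
    refine ⟨B', C, hC, fun a => ?_, hB2⟩
    rw [← hA1]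
    exact hC1 s rfl a
  have hs2 : ∀ Y : Module.End ℂ (Ws D' t), LinearMap.trace ℂ (Ws D' t) Y = 0 →
      ∃ X, (X, Y) ∈ PP0 D D' h s t := by
    intro Y hY
    obtain ⟨A, hA, hA1⟩ := exists_fam1 D' t Y hY
    obtain ⟨C0, hC0, hC1⟩ := ht A hA
    obtain ⟨C, hC, rfl⟩ := hl2 C0 hC0
    obtain ⟨A', -, hA2⟩ := htr C.1 (hpr C hC).1 s
    refine ⟨A', C, hC, hA2, fun b => ?_⟩
    rw [← hA1]
    exact hC1 t rfl b
  have hlk : ∀ x ∈ PP0 D D' h s t, x.1 = 0 ↔ x.2 = 0 := by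
    rintro x ⟨C, hC, h1, h2⟩
    have h3 : (∀ a ∈ Ws D s, C.1 a = 0) ↔ x.1 = 0 := by
      constructor
      · intro h4
        refine ext_Ws D s _ _ fun a => ?_
        rw [← h1, h4 a a.2]
        rfl
      · intro h4 a ha
        rw [h1 ⟨a, ha⟩, h4]
        rfl
    have h5 : (∀ b ∈ Ws D' t, C.2 b = 0) ↔ x.2 = 0 := by
      constructor
      · intro h4
        refine ext_Ws D' t _ _ fun b => ?_
        rw [← h2, h4 b b.2]
        rfl
      · intro h4 b hb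
        rw [h2 ⟨b, hb⟩, h4]
        rfl
    rw [← h3, ← h5]
    exact hL C hC
  rcases hIntG hInt (Ws D s) (Ws D' t) (PP0 D D' h s t) hd hd' hcl htr0 hs1 hs2 hlk with
    ⟨θ, hθ⟩ | ⟨θ, hθ⟩
  · left
    refine ⟨θ, ?_⟩
    intro C hC a b hab
    obtain ⟨A', -, hA2⟩ := htr C.1 (hpr C hC).1 s
    obtain ⟨B', -, hB2⟩ := htr' C.2 (hpr C hC).2 t
    have h1 : θ (A' a) = B' (θ a) := hθ (A', B') ⟨C, hC, hA2, hB2⟩ a
    have h2 : b = A' a := Subtype.ext (by rw [hab, hA2])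
    rw [h2, h1, hB2]
  · right
    obtain ⟨β, hβ⟩ := dua hDua D' hm' (-t) t (neg_neg t).symm
    refine ⟨θ.trans β.symm, ?_⟩
    intro C hC a b hab
    obtain ⟨A', -, hA2⟩ := htr C.1 (hpr C hC).1 s
    obtain ⟨B', -, hB2⟩ := htr' C.2 (hpr C hC).2 t
    obtain ⟨B'', -, hB3⟩ := htr' C.2 (hpr C hC).2 (-t)
    have h2 : b = A' a := Subtype.ext (by rw [hab, hA2])
    have hCu : C.2 ∈ Submodule.span ℂ (pre '' {Y | IsU D' Y}) := by
      refine Submodule.span_mono (Set.image_mono ?_) (hpr C hC).2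
      rintro _ ⟨X, hX, X', hX', rfl⟩
      exact hh2.u _ (hh2.lie.br X hX X' hX')
    have hc : ∀ x, β ((θ.trans β.symm) x) = θ x := fun x => by
      rw [LinearEquiv.trans_apply, LinearEquiv.apply_symm_apply]
    set c : Ws D' (-t) := (θ.trans β.symm) a with hcdef
    have h3 : β (B'' c) = θ b := by
      refine LinearMap.ext fun w' => ?_
      have h4 : β (B'' c) w' = -β c (B' w') :=
        hβ C.2 hCu c (B'' c) w' (B' w') (hB3 c).symm (hB2 w').symm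
      have h5 : θ (A' a) w' = -(θ a) (B' w') := hθ (A', B') ⟨C, hC, hA2, hB2⟩ a w'
      rw [h4, hcdef, hc a, ← h5, h2]
    have h6 : (θ.trans β.symm) b = B'' c := by
      apply β.injective
      rw [hc b, h3]
    rw [h6, hB3]

end SEG
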